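import Pool.Agent.Lib.MP_389031_co.Defs

/-! # K13: colourings of the line graph -/

namespace VizSize

variable {C V : Type*}

/-- K13 the line graph -/
theorem colorable_iff (G : SimpleGraph V) (m : ℕ) :
    G.lineGraph.Colorable m ↔ ∃ φ : Col (Fin m) V, Full φ G := by
  classical
  constructor
  · rintro ⟨f⟩
    -- uniqueness of the edge of a given colour
    have huniq : ∀ {x y y' : V} (h : G.Adj x y) (h' : G.Adj x y'),
        f ⟨s(x, y), h⟩ = f ⟨s(x, y'), h'⟩ → y = y' := by
      intro x y y' h h' he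
      by_contra hne
      have hadj : G.lineGraph.Adj ⟨s(x, y), h⟩ ⟨s(x, y'), h'⟩ := by
        rw [SimpleGraph.lineGraph_adj_iff_exists]
        refine ⟨?_, x, by simp, by simp⟩
        intro e
        have := congrArg Subtype.val e
        simp only [Sym2.eq_iff] at this
        rcases this with ⟨-, h1⟩ | ⟨h1, h2⟩
        · exact hne h1
        · exact hne (h2.trans h1)
      exact f.valid hadj he
    let M : Fin m → V → V := fun c x =>
      if h : ∃ y, ∃ hxy : G.Adj x y, f ⟨s(x, y), hxy⟩ = c then h.choose else x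
    have hM1 : ∀ {x y : V} (h : G.Adj x y), M (f ⟨s(x, y), h⟩) x = y := by
      intro x y h
      have hex : ∃ y', ∃ hxy : G.Adj x y', f ⟨s(x, y'), hxy⟩ = f ⟨s(x, y), h⟩ := ⟨y, h, rfl⟩
      have : M (f ⟨s(x, y), h⟩) x = hex.choose := dif_pos hex
      rw [this]
      obtain ⟨h1, h2⟩ := hex.choose_spec
      exact huniq h1 h h2
    have hM2 : ∀ c x, M c x ≠ x → ∃ h : G.Adj x (M c x), f ⟨s(x, M c x), h⟩ = c := by
      intro c x hne
      by_cases hex : ∃ y, ∃ hxy : G.Adj x y, f ⟨s(x, y), hxy⟩ = c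
      · have : M c x = hex.choose := dif_pos hex
        rw [this]
        exact hex.choose_spec
      · exact absurd (dif_neg hex) hne
    refine ⟨⟨M, ?_, ?_⟩, ?_⟩
    · intro c x
      by_cases hne : M c x = x
      · rw [hne, hne]
      · obtain ⟨h, hc⟩ := hM2 c x hne
        have h1 : f ⟨s(M c x, x), h.symm⟩ = c :=
          (congrArg f (Subtype.ext Sym2.eq_swap)).trans hc
        have h2 := hM1 h.symm
        rw [h1] at h2
        exact h2
    · intro c d x hcd he
      by_contra hne
      obtain ⟨h, hc⟩ := hM2 c x hne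
      have hne' : M d x ≠ x := by rw [← he]; exact hne
      obtain ⟨h', hd⟩ := hM2 d x hne'
      exact hcd (hc.symm.trans ((congrArg f (Subtype.ext (by simp only [he]))).trans hd))
    · intro x y
      constructor
      · rintro ⟨hxy, c, hc⟩
        obtain ⟨h, -⟩ := hM2 c x (fun e => hxy (by rw [← hc]; exact e.symm))
        have hc' : M c x = y := hc
        rw [hc'] at h
        exact h
      · intro h
        exact ⟨h.ne, _, hM1 h⟩
  · rintro ⟨φ, hφ⟩
    have hex : ∀ e : G.edgeSet, ∃ c : Fin m, ∀ x y, (e : Sym2 V) = s(x, y) → φ.M c x = y := by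
      rintro ⟨e, he⟩
      induction e using Sym2.ind with
      | _ a b =>
        obtain ⟨-, c, hc⟩ := (hφ a b).2 he
        refine ⟨c, fun x y hxy => ?_⟩
        simp only [Sym2.eq_iff] at hxy
        rcases hxy with ⟨rfl, rfl⟩ | ⟨rfl, rfl⟩
        · exact hc
        · rw [← hc]
          exact φ.inv c a
    choose f hf using hex
    refine ⟨SimpleGraph.Coloring.mk f ?_⟩
    intro e₁ e₂ hadj he
    rw [SimpleGraph.lineGraph_adj_iff_exists] at hadj
    obtain ⟨hne, x, hx1, hx2⟩ := hadj
    obtain ⟨y₁, hy₁⟩ := Sym2.mem_iff_exists.1 hx1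
    obtain ⟨y₂, hy₂⟩ := Sym2.mem_iff_exists.1 hx2
    apply hne
    apply Subtype.ext
    rw [hy₁, hy₂]
    have h1 := hf e₁ x y₁ hy₁
    have h2 := hf e₂ x y₂ hy₂
    rw [← h1, ← h2, he]

end VizSize
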