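import Pool.Agent.Lib.MP_389031_co.Defs

set_option autoImplicit false

namespace VizSize

variable {C V : Type*}

/-- K2: swap the colours `α`, `β` on a set closed under both involutions. -/
theorem exists_swap [DecidableEq C] (φ : Col C V) {α β : C} (hαβ : α ≠ β) (S : Set V)
    (hα : ∀ x ∈ S, φ.M α x ∈ S) (hβ : ∀ x ∈ S, φ.M β x ∈ S) :
    ∃ φ' : Col C V, (∀ c, ∀ x ∉ S, φ'.M c x = φ.M c x) ∧
      (∀ c, c ≠ α → c ≠ β → ∀ x, φ'.M c x = φ.M c x) ∧
      (∀ x ∈ S, φ'.M α x = φ.M β x) ∧ (∀ x ∈ S, φ'.M β x = φ.M α x) ∧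
      (∀ x y, (∃ c, φ'.M c x = y) ↔ (∃ c, φ.M c x = y)) := by
  classical
  have hns : ∀ c, (∀ x ∈ S, φ.M c x ∈ S) → ∀ x, x ∉ S → φ.M c x ∉ S := by
    intro c hc x hx h
    have := hc _ h
    rw [φ.inv] at this
    exact hx this
  have hinv : ∀ c x, (if (if x ∈ S then φ.M (Equiv.swap α β c) x else φ.M c x) ∈ S
      then φ.M (Equiv.swap α β c) (if x ∈ S then φ.M (Equiv.swap α β c) x else φ.M c x)
      else φ.M c (if x ∈ S then φ.M (Equiv.swap α β c) x else φ.M c x)) = x := by
    intro c x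
    by_cases hcα : c = α
    · subst hcα
      rw [Equiv.swap_apply_left]
      by_cases hx : x ∈ S
      · rw [if_pos hx, if_pos (hβ x hx), φ.inv]
      · rw [if_neg hx, if_neg (hns _ hα x hx), φ.inv]
    · by_cases hcβ : c = β
      · subst hcβ
        rw [Equiv.swap_apply_right]
        by_cases hx : x ∈ S
        · rw [if_pos hx, if_pos (hα x hx), φ.inv]
        · rw [if_neg hx, if_neg (hns _ hβ x hx), φ.inv]
      · rw [Equiv.swap_apply_of_ne_of_ne hcα hcβ]
        simp only [ite_self]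
        exact φ.inv c x
  refine ⟨⟨fun c x => if x ∈ S then φ.M (Equiv.swap α β c) x else φ.M c x, hinv, ?_⟩,
    ?_, ?_, ?_, ?_, ?_⟩
  · intro c d x hcd h
    by_cases hx : x ∈ S
    · simp only [if_pos hx] at h ⊢
      exact φ.prop _ _ x (fun e => hcd ((Equiv.swap α β).injective e)) h
    · simp only [if_neg hx] at h ⊢
      exact φ.prop _ _ x hcd h
  · intro c x hx
    exact if_neg hx
  · intro c h1 h2 x
    show (if x ∈ S then φ.M (Equiv.swap α β c) x else φ.M c x) = φ.M c x
    rw [Equiv.swap_apply_of_ne_of_ne h1 h2, ite_self]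
  · intro x hx
    show (if x ∈ S then φ.M (Equiv.swap α β α) x else φ.M α x) = φ.M β x
    rw [if_pos hx, Equiv.swap_apply_left]
  · intro x hx
    show (if x ∈ S then φ.M (Equiv.swap α β β) x else φ.M β x) = φ.M α x
    rw [if_pos hx, Equiv.swap_apply_right]
  · intro x y
    show (∃ c, (if x ∈ S then φ.M (Equiv.swap α β c) x else φ.M c x) = y) ↔ _
    by_cases hx : x ∈ S
    · simp only [if_pos hx]
      constructor
      · rintro ⟨c, hc⟩
        exact ⟨_, hc⟩
      · rintro ⟨c, hc⟩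
        refine ⟨Equiv.swap α β c, ?_⟩
        rw [Equiv.swap_apply_self]
        exact hc
    · simp only [if_neg hx]

end VizSize
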