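import Pool.Agent.Lib.MP_389031_co.K3

/-! # K4: the three recolouring contradictions -/

set_option autoImplicit false

namespace VizSize

variable {C V : Type*}

/-- the coloured edges are the edges of `G` outside of `S` -/
private def K4Rel (φ : Col C V) (G : SimpleGraph V) (S : Set (Sym2 V)) : Prop :=
  ∀ x y, (x ≠ y ∧ ∃ c, φ.M c x = y) ↔ (G.Adj x y ∧ s(x, y) ∉ S)

private theorem K4add {G : SimpleGraph V} {S : Set (Sym2 V)} (φ : Col C V) (h : K4Rel φ G S)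
    {c : C} {u v : V} (hadj : G.Adj u v) (hS : s(u, v) ∈ S) (hu : φ.M c u = u)
    (hv : φ.M c v = v) :
    ∃ φ' : Col C V, (∀ d, d ≠ c → ∀ x, φ'.M d x = φ.M d x) ∧
      (∀ x, x ≠ u → x ≠ v → φ'.M c x = φ.M c x) ∧ φ'.M c u = v ∧ φ'.M c v = u ∧
      K4Rel φ' G (S \ {s(u, v)}) := by
  have huv : u ≠ v := hadj.ne
  obtain ⟨φ', h1, h2, h3, h4⟩ := exists_add φ huv hu hv (fun d hd =>
    ((h u v).1 ⟨huv, d, hd⟩).2 hS)
  refine ⟨φ', h1, h2, h3, h4, ?_⟩
  intro x y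
  rw [Set.mem_sdiff, Set.mem_singleton_iff, Sym2.eq_iff]
  constructor
  · rintro ⟨hxy, d, hd⟩
    by_cases hdc : d = c
    · subst hdc
      by_cases hxu : x = u
      · subst hxu
        rw [h3] at hd
        subst hd
        exact ⟨hadj, fun k => k.2 (Or.inl ⟨rfl, rfl⟩)⟩
      · by_cases hxv : x = v
        · subst hxv
          rw [h4] at hd
          subst hd
          exact ⟨hadj.symm, fun k => k.2 (Or.inr ⟨rfl, rfl⟩)⟩
        · rw [h2 x hxu hxv] at hd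
          have := (h x y).1 ⟨hxy, d, hd⟩
          exact ⟨this.1, fun k => this.2 k.1⟩
    · rw [h1 d hdc] at hd
      have := (h x y).1 ⟨hxy, d, hd⟩
      exact ⟨this.1, fun k => this.2 k.1⟩
  · rintro ⟨hA, hk⟩
    refine ⟨hA.ne, ?_⟩
    by_cases hin : s(x, y) ∈ S
    · have hcase : (x = u ∧ y = v) ∨ (x = v ∧ y = u) := by
        by_contra hcon
        exact hk ⟨hin, hcon⟩
      rcases hcase with ⟨rfl, rfl⟩ | ⟨rfl, rfl⟩
      · exact ⟨c, h3⟩
      · exact ⟨c, h4⟩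
    · obtain ⟨hxy, d, hd⟩ := (h x y).2 ⟨hA, hin⟩
      refine ⟨d, ?_⟩
      by_cases hdc : d = c
      · subst hdc
        have hxu : x ≠ u := by
          rintro rfl
          rw [hu] at hd
          exact hxy hd
        have hxv : x ≠ v := by
          rintro rfl
          rw [hv] at hd
          exact hxy hd
        rw [h2 x hxu hxv]
        exact hd
      · rw [h1 d hdc]
        exact hd

private theorem K4del {G : SimpleGraph V} {S : Set (Sym2 V)} (φ : Col C V) (h : K4Rel φ G S)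
    {c : C} {u v : V} (huv : u ≠ v) (hu : φ.M c u = v) :
    ∃ φ' : Col C V, (∀ d, d ≠ c → ∀ x, φ'.M d x = φ.M d x) ∧
      (∀ x, x ≠ u → x ≠ v → φ'.M c x = φ.M c x) ∧ φ'.M c u = u ∧ φ'.M c v = v ∧
      K4Rel φ' G (insert s(u, v) S) := by
  obtain ⟨φ', h1, h2, h3, h4⟩ := exists_del φ huv hu
  have hv : φ.M c v = u := by rw [← hu, φ.inv]
  refine ⟨φ', h1, h2, h3, h4, ?_⟩
  intro x y
  rw [Set.mem_insert_iff, Sym2.eq_iff]
  constructor
  · rintro ⟨hxy, d, hd⟩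
    by_cases hdc : d = c
    · subst hdc
      have hxu : x ≠ u := by
        rintro rfl
        rw [h3] at hd
        exact hxy hd
      have hxv : x ≠ v := by
        rintro rfl
        rw [h4] at hd
        exact hxy hd
      rw [h2 x hxu hxv] at hd
      have := (h x y).1 ⟨hxy, d, hd⟩
      refine ⟨this.1, ?_⟩
      rintro ((k | k) | k)
      · exact hxu k.1
      · exact hxv k.1
      · exact this.2 k
    · rw [h1 d hdc] at hd
      have := (h x y).1 ⟨hxy, d, hd⟩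
      refine ⟨this.1, ?_⟩
      rintro ((⟨rfl, rfl⟩ | ⟨rfl, rfl⟩) | k)
      · have := φ.prop c d x (fun e => hdc e.symm) (hu.trans hd.symm)
        exact huv (this.symm.trans hu)
      · have := φ.prop c d x (fun e => hdc e.symm) (hv.trans hd.symm)
        exact huv (hv.symm.trans this)
      · exact this.2 k
  · rintro ⟨hA, hk⟩
    push Not at hk
    obtain ⟨hxy, d, hd⟩ := (h x y).2 ⟨hA, hk.2⟩
    refine ⟨hxy, d, ?_⟩
    by_cases hdc : d = c
    · subst hdc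
      have hxu : x ≠ u := by
        rintro rfl
        exact hk.1.1 rfl (hd.symm.trans hu)
      have hxv : x ≠ v := by
        rintro rfl
        exact hk.1.2 rfl (hd.symm.trans hv)
      rw [h2 x hxu hxv]
      exact hd
    · rw [h1 d hdc]
      exact hd

private theorem K4full {G : SimpleGraph V} {S : Set (Sym2 V)} (φ : Col C V) (h : K4Rel φ G S)
    (hS : ∀ e, e ∉ S) : Full φ G := by
  intro x y
  rw [h x y]
  exact ⟨fun k => k.1, fun k => ⟨k, hS _⟩⟩

private theorem K4good {G : SimpleGraph V} {u v : V} (φ : Col C V) (h : Good φ G u v) :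
    K4Rel φ G {s(u, v)} := h

/-- K4a: no common missing colour at `u`, `v`. -/
theorem no_common {G : SimpleGraph V} {u v : V} (hG : Bad C G) (hadj : G.Adj u v)
    (φ : Col C V) (hφ : Good φ G u v) {c : C} (hu : φ.M c u = u) : φ.M c v ≠ v := by
  intro hv
  obtain ⟨φ', _, _, _, _, h5⟩ := K4add φ (K4good φ hφ) hadj rfl hu hv
  exact hG φ' (K4full φ' h5 (fun e k => k.2 k.1))

/-- K4b: colour `uv := α`, `vw := γ`. -/
theorem no_fan {G : SimpleGraph V} {u v w : V} (hG : Bad C G) (hadj : G.Adj u v)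
    (φ : Col C V) (hφ : Good φ G u v) {α γ : C} (hu : φ.M α u = u) (hw : φ.M α v = w)
    (hv : φ.M γ v = v) : φ.M γ w ≠ w := by
  intro hγw
  have hvw : v ≠ w := by
    intro e
    exact no_common hG hadj φ hφ hu (hw.trans e.symm)
  have huw : u ≠ w := by
    intro e
    have h1 : φ.M α w = v := by rw [← hw, φ.inv]
    rw [← e, hu] at h1
    exact hadj.ne h1
  have hαγ : γ ≠ α := by
    intro e
    rw [e, hw] at hv
    exact hvw hv.symm
  have hvwadj : G.Adj v w := ((hφ v w).1 ⟨hvw, α, hw⟩).1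
  obtain ⟨φ1, a1, a2, a3, a4, a5⟩ := K4del φ (K4good φ hφ) hvw hw
  obtain ⟨φ2, b1, b2, b3, b4, b5⟩ := K4add φ1 a5 (c := α) hadj (Or.inr rfl)
    (by rw [a2 u hadj.ne huw, hu]) a3
  obtain ⟨φ3, c1, c2, c3, c4, c5⟩ := K4add φ2 b5 (c := γ) hvwadj (by
      refine ⟨Or.inl rfl, ?_⟩
      rw [Set.mem_singleton_iff, Sym2.eq_iff]
      rintro (⟨e1, e2⟩ | ⟨e1, e2⟩)
      · exact hadj.ne e1.symm
      · exact huw e2.symm)
    (by rw [b1 γ hαγ, a1 γ hαγ, hv]) (by rw [b1 γ hαγ, a1 γ hαγ, hγw])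
  refine hG φ3 (K4full φ3 c5 ?_)
  rintro e ⟨⟨k1 | k1, k2⟩, k3⟩
  · exact k3 k1
  · exact k2 k1

/-- K4c: colour `uv := α`, `vw := γ`, `wz := α`. -/
theorem no_path {G : SimpleGraph V} {u v w z : V} (hG : Bad C G) (hadj : G.Adj u v)
    (φ : Col C V) (hφ : Good φ G u v) {α γ : C} (hu : φ.M α u = u) (hw : φ.M α v = w)
    (hv : φ.M γ v = v) (hz : φ.M γ w = z) (hzv : z ≠ v) (hzu : z ≠ u) : φ.M α z ≠ z := by
  intro hαz
  have hvw : v ≠ w := by
    intro e
    exact no_common hG hadj φ hφ hu (hw.trans e.symm)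
  have huw : u ≠ w := by
    intro e
    have h1 : φ.M α w = v := by rw [← hw, φ.inv]
    rw [← e, hu] at h1
    exact hadj.ne h1
  have hαγ : γ ≠ α := by
    intro e
    rw [e, hw] at hv
    exact hvw hv.symm
  have hwz : w ≠ z := by
    intro e
    exact no_fan hG hadj φ hφ hu hw hv (hz.trans e.symm)
  have hvwadj : G.Adj v w := ((hφ v w).1 ⟨hvw, α, hw⟩).1
  have hwzadj : G.Adj w z := ((hφ w z).1 ⟨hwz, γ, hz⟩).1
  obtain ⟨φ0, z1, z2, z3, z4, z5⟩ := K4del φ (K4good φ hφ) hwz hz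
  obtain ⟨φ1, a1, a2, a3, a4, a5⟩ := K4del φ0 z5 (c := α) hvw (by
    rw [z1 α (fun e => hαγ e.symm), hw])
  obtain ⟨φ2, b1, b2, b3, b4, b5⟩ := K4add φ1 a5 (c := α) hadj (Or.inr (Or.inr rfl))
    (by rw [a2 u hadj.ne huw, z1 α (fun e => hαγ e.symm), hu]) a3
  obtain ⟨φ3, c1, c2, c3, c4, c5⟩ := K4add φ2 b5 (c := γ) hvwadj (by
      refine ⟨Or.inl rfl, ?_⟩
      rw [Set.mem_singleton_iff, Sym2.eq_iff]
      rintro (⟨e1, e2⟩ | ⟨e1, e2⟩)
      · exact hadj.ne e1.symm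
      · exact huw e2.symm)
    (by rw [b1 γ hαγ, a1 γ hαγ, z2 v hvw hzv.symm, hv])
    (by rw [b1 γ hαγ, a1 γ hαγ, z3])
  obtain ⟨φ4, d1, d2, d3, d4, d5⟩ := K4add φ3 c5 (c := α) hwzadj (by
      refine ⟨⟨Or.inr (Or.inl rfl), ?_⟩, ?_⟩
      · rw [Set.mem_singleton_iff, Sym2.eq_iff]
        rintro (⟨e1, e2⟩ | ⟨e1, e2⟩)
        · exact huw e1.symm
        · exact hvw e1.symm
      · rw [Set.mem_singleton_iff, Sym2.eq_iff]
        rintro (⟨e1, e2⟩ | ⟨e1, e2⟩)
        · exact hvw e1.symm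
        · exact hzv e2)
    (by rw [c1 α (fun e => hαγ e.symm), b2 w huw.symm hvw.symm, a4])
    (by rw [c1 α (fun e => hαγ e.symm), b2 z hzu hzv, a2 z hzv hwz.symm,
        z1 α (fun e => hαγ e.symm), hαz])
  refine hG φ4 (K4full φ4 d5 ?_)
  rintro e ⟨⟨⟨k1 | k1 | k1, k2⟩, k3⟩, k4⟩
  · exact k3 k1
  · exact k4 k1
  · exact k2 k1

end VizSize
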