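import Pool.Agent.Lib.MP_389031_co.K1
import Pool.Agent.Lib.MP_389031_co.K2
import Pool.Agent.Lib.MP_389031_co.K4

/-! # Linkage and the safe swap -/

namespace VizSize

variable {C V : Type*}

theorem k5_good_of_swap {G : SimpleGraph V} {u v : V} {φ φ' : Col C V} (hφ : Good φ G u v)
    (h : ∀ x y, (∃ c, φ'.M c x = y) ↔ (∃ c, φ.M c x = y)) : Good φ' G u v := by
  intro x y
  rw [h x y]
  exact hφ x y

/-- K5a: for `δ` missing at `u`, `γ` missing at `v`, the two vertices are `(γ,δ)`-linked. -/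
theorem linked [DecidableEq C] {G : SimpleGraph V} {u v : V} (hG : Bad C G)
    (hadj : G.Adj u v) (φ : Col C V) (hφ : Good φ G u v) {γ δ : C} (hu : φ.M δ u = u)
    (hv : φ.M γ v = v) : Reach (φ.M γ) (φ.M δ) u v := by
  by_contra hr
  by_cases hne : γ = δ
  · subst hne
    exact no_common hG hadj φ hφ hu hv
  · obtain ⟨φ', h1, _, h3, _, h5⟩ := exists_swap φ hne {x | Reach (φ.M γ) (φ.M δ) u x}
      (fun x hx => Relation.ReflTransGen.tail hx (Or.inl rfl))
      (fun x hx => Relation.ReflTransGen.tail hx (Or.inr rfl))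
    have hu' : φ'.M γ u = u := by
      rw [h3 u Relation.ReflTransGen.refl, hu]
    have hv' : φ'.M γ v = v := by
      rw [h1 γ v hr, hv]
    exact no_common hG hadj φ' (k5_good_of_swap hφ h5) hu' hv'

/-- K5b: the safe swap at a third vertex `z` missing `γ` or `δ`. -/
theorem safe_swap [Finite V] [DecidableEq C] {G : SimpleGraph V} {u v : V} (hG : Bad C G)
    (hadj : G.Adj u v) (φ : Col C V) (hφ : Good φ G u v) {γ δ : C} (hu : φ.M δ u = u)
    (hv : φ.M γ v = v) {z : V} (hzu : z ≠ u) (hzv : z ≠ v)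
    (hz : φ.M γ z = z ∨ φ.M δ z = z) :
    ∃ φ' : Col C V, Good φ' G u v ∧ (∀ c, c ≠ γ → c ≠ δ → ∀ x, φ'.M c x = φ.M c x) ∧
      (∀ c, φ'.M c u = φ.M c u) ∧ (∀ c, φ'.M c v = φ.M c v) ∧
      φ'.M γ z = φ.M δ z ∧ φ'.M δ z = φ.M γ z := by
  by_cases hne : γ = δ
  · subst hne
    exact absurd hv (no_common hG hadj φ hφ hu)
  · have hl : Reach (φ.M γ) (φ.M δ) u v := linked hG hadj φ hφ hu hv
    have hls : Reach (φ.M γ) (φ.M δ) v u := reach_symm _ _ (φ.inv γ) (φ.inv δ) hl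
    have key : ¬ (Reach (φ.M γ) (φ.M δ) z u ∧ Reach (φ.M γ) (φ.M δ) z v) := by
      rintro ⟨h1, h2⟩
      have := three_ends (φ.M γ) (φ.M δ) (φ.inv γ) (φ.inv δ) h1 h2 hz (Or.inr hu) (Or.inl hv)
        hzu.symm hzv.symm
      exact hadj.ne this
    have hnu : ¬ Reach (φ.M γ) (φ.M δ) z u := fun h => key ⟨h, h.trans hl⟩
    have hnv : ¬ Reach (φ.M γ) (φ.M δ) z v := fun h => key ⟨h.trans hls, h⟩
    obtain ⟨φ', h1, h2, h3, h4, h5⟩ := exists_swap φ hne {x | Reach (φ.M γ) (φ.M δ) z x}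
      (fun x hx => Relation.ReflTransGen.tail hx (Or.inl rfl))
      (fun x hx => Relation.ReflTransGen.tail hx (Or.inr rfl))
    exact ⟨φ', k5_good_of_swap hφ h5, h2, fun c => h1 c u hnu, fun c => h1 c v hnv,
      h3 z Relation.ReflTransGen.refl, h4 z Relation.ReflTransGen.refl⟩

end VizSize
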