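import Pool.Agent.Lib.MP_389031_co.K1
import Pool.Agent.Lib.MP_389031_co.K2
import Pool.Agent.Lib.MP_389031_co.K4
import Pool.Agent.Lib.MP_389031_co.K5

/-! # K6 the fan -/

namespace VizSize

variable {C V : Type*}

theorem ne_of_good {G : SimpleGraph V} {u v w : V} (hG : Bad C G) (hadj : G.Adj u v)
    (φ : Col C V) (hφ : Good φ G u v) {α : C} (hu : φ.M α u = u) (hw : φ.M α v = w) :
    w ≠ v ∧ w ≠ u := by
  have h1 : w ≠ v := by
    intro h
    exact no_common hG hadj φ hφ hu (hw.trans h)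
  refine ⟨h1, ?_⟩
  intro h
  have hvu : v ≠ u := hadj.ne'
  have h2 := (hφ v u).1 ⟨hvu, α, hw.trans h⟩
  exact h2.2 Sym2.eq_swap

/-- K6a -/
theorem fan_u [Finite V] [DecidableEq C] {G : SimpleGraph V} {u v w : V} (hG : Bad C G)
    (hadj : G.Adj u v) (φ : Col C V) (hφ : Good φ G u v) {α γ η : C} (hu : φ.M α u = u)
    (hw : φ.M α v = w) (hv : φ.M γ v = v) (hη : φ.M η u = u) : φ.M η w ≠ w := by
  intro hηw
  obtain ⟨hwv, hwu⟩ := ne_of_good hG hadj φ hφ hu hw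
  have hαw : φ.M α w = v := by rw [← hw, φ.inv]
  have hαη : α ≠ η := by
    rintro rfl
    exact hwv (hηw.symm.trans hαw)
  have hαγ : α ≠ γ := by
    rintro rfl
    exact hwv (hw.symm.trans hv)
  obtain ⟨φ', hG', hc, hu', hv', hz1, hz2⟩ :=
    safe_swap hG hadj φ hφ hη hv hwu hwv (Or.inr hηw)
  refine no_fan hG hadj φ' hG' (α := α) (γ := γ) (w := w) ?_ ?_ ?_ ?_
  · rw [hu', hu]
  · rw [hv', hw]
  · rw [hv', hv]
  · rw [hz1, hηw]

theorem fan_reach [Finite V] [DecidableEq C] {G : SimpleGraph V} {u v w : V}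
    (hG : Bad C G) (hadj : G.Adj u v) (φ : Col C V) (hφ : Good φ G u v) {α γ η : C}
    (hu : φ.M α u = u) (hw : φ.M α v = w) (hv : φ.M γ v = v) (hη : φ.M η w = w) :
    Reach (φ.M γ) (φ.M η) v w := by
  by_contra hn
  obtain ⟨hwv, hwu⟩ := ne_of_good hG hadj φ hφ hu hw
  have hαw : φ.M α w = v := by rw [← hw, φ.inv]
  have hαη : α ≠ η := by
    rintro rfl
    exact hwv (hη.symm.trans hαw)
  have hαγ : α ≠ γ := by
    rintro rfl
    exact hwv (hw.symm.trans hv)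
  have hγη : γ ≠ η := by
    rintro rfl
    exact no_fan hG hadj φ hφ hu hw hv hη
  have hvS : ¬ Reach (φ.M γ) (φ.M η) w v := fun h =>
    hn (reach_symm _ _ (φ.inv γ) (φ.inv η) h)
  obtain ⟨φ', h1, h2, h3, h4, h5⟩ := exists_swap φ hγη {x | Reach (φ.M γ) (φ.M η) w x}
    (fun x hx => Relation.ReflTransGen.tail hx (Or.inl rfl))
    (fun x hx => Relation.ReflTransGen.tail hx (Or.inr rfl))
  have hG' : Good φ' G u v := by
    intro x y
    rw [h5, hφ x y]
  refine no_fan hG hadj φ' hG' (α := α) (γ := γ) (w := w) ?_ ?_ ?_ ?_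
  · rw [h2 α hαγ hαη, hu]
  · rw [h2 α hαγ hαη, hw]
  · rw [h1 γ v hvS, hv]
  · rw [h3 w Relation.ReflTransGen.refl, hη]

/-- K6b -/
theorem fan_pair [Finite V] [DecidableEq C] {G : SimpleGraph V} {u v w w' : V}
    (hG : Bad C G) (hadj : G.Adj u v) (φ : Col C V) (hφ : Good φ G u v) {α α' γ η : C}
    (hα : α ≠ α') (hu : φ.M α u = u) (hu' : φ.M α' u = u) (hw : φ.M α v = w)
    (hw' : φ.M α' v = w') (hv : φ.M γ v = v) (hη : φ.M η w = w) : φ.M η w' ≠ w' := by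
  intro hη'
  obtain ⟨hwv, hwu⟩ := ne_of_good hG hadj φ hφ hu hw
  obtain ⟨hwv', hwu'⟩ := ne_of_good hG hadj φ hφ hu' hw'
  have hne : w ≠ w' := by
    intro h
    exact hwv (hw.symm.trans (φ.prop α α' v hα (hw.trans (h.trans hw'.symm))))
  have h1 := fan_reach hG hadj φ hφ hu hw hv hη
  have h2 := fan_reach hG hadj φ hφ hu' hw' hv hη'
  exact hne (three_ends _ _ (φ.inv γ) (φ.inv η) h1 h2 (Or.inl hv) (Or.inr hη) (Or.inr hη')
    hwv hwv')

end VizSize
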