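import Pool.Agent.Lib.MP_389031_co.K4
import Pool.Agent.Lib.MP_389031_co.K6

/-! # L1: fan deficits -/

namespace VizSize

open Finset

variable {C V : Type*} [Fintype C] [Fintype V] [DecidableEq C] [DecidableEq V]

/-- L1: fan deficits -/
theorem fan_deficit {G : SimpleGraph V} {u v : V} (hG : Bad C G) (hadj : G.Adj u v)
    (φ : Col C V) (hφ : Good φ G u v) (hv : (miss φ v).Nonempty) :
    (∑ α ∈ miss φ u, (miss φ (φ.M α v)).card) + (miss φ u).card + (miss φ v).card ≤
      Fintype.card C := by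
  obtain ⟨γ, hγ⟩ := hv
  have hmem : ∀ (x : V) (c : C), c ∈ miss φ x ↔ φ.M c x = x := by
    intro x c
    simp [miss]
  have hγ' : φ.M γ v = v := (hmem v γ).1 hγ
  -- pairwise disjoint
  have h1 : ∀ α ∈ miss φ u, ∀ α' ∈ miss φ u, α ≠ α' →
      Disjoint (miss φ (φ.M α v)) (miss φ (φ.M α' v)) := by
    intro α hα α' hα' hne
    rw [Finset.disjoint_left]
    intro η hη hη'
    exact fan_pair hG hadj φ hφ hne ((hmem u α).1 hα) ((hmem u α').1 hα') rfl rfl hγ'
      ((hmem _ η).1 hη) ((hmem _ η).1 hη')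
  have h2 : ((miss φ u).biUnion fun α => miss φ (φ.M α v)).card =
      ∑ α ∈ miss φ u, (miss φ (φ.M α v)).card := Finset.card_biUnion h1
  have h3 : Disjoint ((miss φ u).biUnion fun α => miss φ (φ.M α v)) (miss φ u) := by
    rw [Finset.disjoint_left]
    intro η hη hηu
    obtain ⟨α, hα, hη'⟩ := Finset.mem_biUnion.1 hη
    exact fan_u hG hadj φ hφ ((hmem u α).1 hα) rfl hγ' ((hmem u η).1 hηu) ((hmem _ η).1 hη')
  have h4 : Disjoint (((miss φ u).biUnion fun α => miss φ (φ.M α v)) ∪ miss φ u)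
      (miss φ v) := by
    rw [Finset.disjoint_left]
    intro η hη hηv
    have hηv' := (hmem v η).1 hηv
    rcases Finset.mem_union.1 hη with h | h
    · obtain ⟨α, hα, hη'⟩ := Finset.mem_biUnion.1 h
      exact no_fan hG hadj φ hφ ((hmem u α).1 hα) rfl hηv' ((hmem _ η).1 hη')
    · exact no_common hG hadj φ hφ ((hmem u η).1 h) hηv'
  rw [← h2, ← Finset.card_union_of_disjoint h3, ← Finset.card_union_of_disjoint h4]
  exact Finset.card_le_univ _

end VizSize
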