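import Pool.Agent.Lib.MP_389031_co.Defs

/-! # K1: components of two involutions -/

namespace VizSize

variable {V : Type*}

/-- K1a: reachability is symmetric. -/
theorem reach_symm (a b : V → V) (ha : ∀ x, a (a x) = x) (hb : ∀ x, b (b x) = x) {x y : V}
    (h : Reach a b x y) : Reach a b y x := by
  unfold Reach at h ⊢
  induction h with
  | refl => exact Relation.ReflTransGen.refl
  | tail _ h ih =>
    refine Relation.ReflTransGen.head ?_ ih
    rcases h with h | h
    · left
      rw [h, ha]
    · right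
      rw [h, hb]

theorem reach_swap (a b : V → V) {x y : V} (h : Reach a b x y) : Reach b a x y := by
  unfold Reach at h ⊢
  induction h with
  | refl => exact Relation.ReflTransGen.refl
  | tail _ h ih => exact Relation.ReflTransGen.tail ih h.symm

theorem three_ends_aux (a b : V → V) (ha : ∀ x, a (a x) = x) (hb : ∀ x, b (b x) = x)
    {x y z : V} (hy : Reach a b x y) (hz : Reach a b x z)
    (ex : b x = x) (ey : a y = y ∨ b y = y) (ez : a z = z ∨ b z = z)
    (hxy : y ≠ x) (hxz : z ≠ x) : y = z := by
  let A : Equiv.Perm V := ⟨a, a, ha, ha⟩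
  let B : Equiv.Perm V := ⟨b, b, hb, hb⟩
  have hA : ∀ v, A v = a v := fun _ => rfl
  have hB : ∀ v, B v = b v := fun _ => rfl
  have hAA : A * A = 1 := by
    ext v
    simp [hA, ha]
  have hBB : B * B = 1 := by
    ext v
    simp [hB, hb]
  obtain ⟨p, hp⟩ : ∃ p : Equiv.Perm V, p = A * B := ⟨_, rfl⟩
  have hAi : A⁻¹ = A := by
    rw [inv_eq_iff_mul_eq_one]
    exact hAA
  have hBi : B⁻¹ = B := by
    rw [inv_eq_iff_mul_eq_one]
    exact hBB
  have hBp : B * p * B⁻¹ = p⁻¹ := by
    rw [hp, mul_inv_rev, hAi, hBi]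
    calc B * (A * B) * B = B * A * (B * B) := by simp only [mul_assoc]
      _ = B * A := by rw [hBB, mul_one]
  have hAp : A * p * A⁻¹ = p⁻¹ := by
    rw [hp, mul_inv_rev, hAi, hBi]
    calc A * (A * B) * A = (A * A) * B * A := by simp only [mul_assoc]
      _ = B * A := by rw [hAA, one_mul]
  have hBpow : ∀ i : ℤ, B * p ^ i = p ^ (-i) * B := by
    intro i
    have : B * p ^ i * B⁻¹ = p ^ (-i) := by
      rw [← conj_zpow, hBp, inv_zpow, zpow_neg]
    rw [← this]
    group
  have hApow : ∀ i : ℤ, A * p ^ i = p ^ (-i) * A := by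
    intro i
    have : A * p ^ i * A⁻¹ = p ^ (-i) := by
      rw [← conj_zpow, hAp, inv_zpow, zpow_neg]
    rw [← this]
    group
  have hBx : B x = x := ex
  have hAx : A x = p x := by
    rw [hp, Equiv.Perm.mul_apply, hBx]
  have hb' : ∀ i : ℤ, b ((p ^ i) x) = (p ^ (-i)) x := by
    intro i
    rw [← hB, ← Equiv.Perm.mul_apply, hBpow, Equiv.Perm.mul_apply, hBx]
  have ha' : ∀ i : ℤ, a ((p ^ i) x) = (p ^ (1 - i)) x := by
    intro i
    rw [← hA, ← Equiv.Perm.mul_apply, hApow, Equiv.Perm.mul_apply, hAx,
      ← Equiv.Perm.mul_apply, ← zpow_add_one]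
    congr 2
    ring
  have hreach : ∀ v, Reach a b x v → ∃ i : ℤ, v = (p ^ i) x := by
    intro v hv
    unfold Reach at hv
    induction hv with
    | refl => exact ⟨0, by simp⟩
    | tail _ h ih =>
      obtain ⟨i, hi⟩ := ih
      rcases h with h | h
      · exact ⟨1 - i, by rw [h, hi, ha']⟩
      · exact ⟨-i, by rw [h, hi, hb']⟩
  obtain ⟨N, hN⟩ : ∃ N : ℤ, ∀ n : ℤ, (p ^ n) x = x ↔ N ∣ n := by
    refine ⟨(Function.minimalPeriod (fun v => p • v) x : ℤ), fun n => ?_⟩
    exact MulAction.zpow_smul_eq_iff_minimalPeriod_dvd (a := p) (b := x) (n := n)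
  have hN2 : ∀ i j : ℤ, (p ^ i) x = (p ^ j) x ↔ N ∣ i - j := by
    intro i j
    rw [← hN, sub_eq_neg_add, zpow_add, Equiv.Perm.mul_apply, zpow_neg]
    constructor
    · intro h
      rw [h]
      simp
    · intro h
      have := congrArg (fun v => (p ^ j) v) h
      simpa using this
  -- the parity argument
  have hend : ∀ v, v ≠ x → Reach a b x v → (a v = v ∨ b v = v) →
      ∃ i s e : ℤ, v = (p ^ i) x ∧ 2 * i = N * s + e ∧ (e = 0 ∨ e = 1) ∧ s % 2 = 1 ∧
        (e = 1 → N % 2 = 1) ∧ (e = 0 → N % 2 = 0) := by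
    intro v hvx hv hev
    obtain ⟨i, hi⟩ := hreach v hv
    rcases hev with h | h
    · rw [hi, ha', hN2] at h
      obtain ⟨s, hs⟩ := h
      have h1 : 2 * i = N * (-s) + 1 := by linarith
      have h2 : (N * (-s)) % 2 = 1 := by omega
      have h3 : N % 2 = 1 := by
        rcases Int.emod_two_eq_zero_or_one N with h | h
        · rw [Int.mul_emod, h] at h2
          simp at h2
        · exact h
      have h4 : (-s) % 2 = 1 := by
        rcases Int.emod_two_eq_zero_or_one (-s) with h | h
        · rw [Int.mul_emod, h] at h2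
          simp at h2
        · exact h
      exact ⟨i, -s, 1, hi, h1, Or.inr rfl, h4, fun _ => h3, fun h => by omega⟩
    · rw [hi, hb', hN2] at h
      obtain ⟨s, hs⟩ := h
      have h1 : 2 * i = N * (-s) := by linarith
      have h4 : (-s) % 2 = 1 := by
        rcases Int.emod_two_eq_zero_or_one (-s) with h | h
        · exfalso
          obtain ⟨t, ht⟩ := Int.dvd_of_emod_eq_zero h
          rw [ht] at h1
          have h5 : i = N * t := by
            have : 2 * i = 2 * (N * t) := by rw [h1]; ring
            omega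
          apply hvx
          rw [hi, hN]
          exact ⟨t, h5⟩
        · exact h
      have h3 : N % 2 = 0 := by
        rcases Int.emod_two_eq_zero_or_one N with h | h
        · exact h
        · exfalso
          have h6 : (N * (-s)) % 2 = 1 := by
            rw [Int.mul_emod, h, h4]
            norm_num
          omega
      exact ⟨i, -s, 0, hi, by linarith, Or.inl rfl, h4, fun h => by omega, fun _ => h3⟩
  obtain ⟨i, s, e, hi, h1, he, hs, hN1, hN0⟩ := hend y hxy hy ey
  obtain ⟨j, t, e', hj, h1', he', ht, hN1', hN0'⟩ := hend z hxz hz ez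
  have hee : e = e' := by
    rcases he with he | he <;> rcases he' with he' | he'
    · rw [he, he']
    · have := hN0 he
      have := hN1' he'
      omega
    · have := hN1 he
      have := hN0' he'
      omega
    · rw [he, he']
  have hdvd : N ∣ i - j := by
    have h2 : 2 * (i - j) = N * (s - t) := by
      rw [mul_sub, mul_sub, h1, h1', hee]
      ring
    have h3 : (s - t) % 2 = 0 := by omega
    obtain ⟨r, hr⟩ := Int.dvd_of_emod_eq_zero h3
    refine ⟨r, ?_⟩
    rw [hr] at h2
    have : 2 * (i - j) = 2 * (N * r) := by rw [h2]; ring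
    omega
  rw [hi, hj, hN2]
  exact hdvd

/-- K1b: a component has at most two ends. -/
theorem three_ends [Finite V] (a b : V → V) (ha : ∀ x, a (a x) = x) (hb : ∀ x, b (b x) = x)
    {x y z : V} (hy : Reach a b x y) (hz : Reach a b x z)
    (ex : a x = x ∨ b x = x) (ey : a y = y ∨ b y = y) (ez : a z = z ∨ b z = z)
    (hxy : y ≠ x) (hxz : z ≠ x) : y = z := by
  rcases ex with ex | ex
  · exact three_ends_aux b a hb ha (reach_swap a b hy) (reach_swap a b hz) ex ey.symm ez.symm
      hxy hxz
  · exact three_ends_aux a b ha hb hy hz ex ey ez hxy hxz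

/-- K1c: if `a u = u` and `b u ≠ u` then the component of `u` has no more `a`-covered
vertices than `b`-covered ones. -/
theorem cov_comp [Fintype V] [DecidableEq V] (a b : V → V) (ha : ∀ x, a (a x) = x)
    (hb : ∀ x, b (b x) = x) {u : V} (hu : a u = u) (hbu : b u ≠ u) (S : Finset V)
    (hS : ∀ x, x ∈ S ↔ Reach a b u x) :
    (S.filter (fun x => a x ≠ x)).card ≤ (S.filter (fun x => b x ≠ x)).card := by
  have h1 := Finset.card_filter_add_card_filter_not (s := S) (fun x => a x = x)
  have h2 := Finset.card_filter_add_card_filter_not (s := S) (fun x => b x = x)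
  have h3 : (S.filter (fun x => b x = x)).card ≤ 1 := by
    rw [Finset.card_le_one]
    intro y hy z hz
    rw [Finset.mem_filter] at hy hz
    refine three_ends a b ha hb ((hS y).1 hy.1) ((hS z).1 hz.1) (Or.inl hu) (Or.inr hy.2)
      (Or.inr hz.2) ?_ ?_
    · rintro rfl
      exact hbu hy.2
    · rintro rfl
      exact hbu hz.2
  have h4 : 1 ≤ (S.filter (fun x => a x = x)).card := by
    rw [Nat.one_le_iff_ne_zero, Ne, Finset.card_eq_zero, ← Ne, ← Finset.nonempty_iff_ne_empty]
    refine ⟨u, ?_⟩
    rw [Finset.mem_filter]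
    refine ⟨(hS u).2 ?_, hu⟩
    unfold Reach
    exact Relation.ReflTransGen.refl
  simp only [ne_eq]
  omega

end VizSize
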