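import Pool.Agent.Lib.MP_389031_co.K4
import Pool.Agent.Lib.MP_389031_co.K5

/-! # The four vertex Kierstead path -/

namespace VizSize

variable {C V : Type*}

/-- case A: `α₁` and another colour `η` are missing at `z` -/
private theorem kier_caseA [Finite V] [DecidableEq C] {G : SimpleGraph V} {u v w z : V}
    (hG : Bad C G) (hadj : G.Adj u v) (φ : Col C V) (hφ : Good φ G u v)
    {α₁ α₂ γ η : C} (hv : φ.M γ v = v) (h1u : φ.M α₁ u = u) (h1 : φ.M α₁ v = w)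
    (h2u : φ.M α₂ u = u) (h2 : φ.M α₂ w = z) (hzu : z ≠ u) (hzv : z ≠ v) (hwz : w ≠ z)
    (hγ : ∀ c, φ.M c u = u → c ≠ γ) (h12 : α₁ ≠ α₂) (hη : η ≠ α₁) (hηu : φ.M η u = u)
    (hηz : φ.M η z = z) (h1z : φ.M α₁ z = z) : False := by
  have hγu : φ.M γ u ≠ u := fun h => hγ γ h rfl
  have h2z : φ.M α₂ z = w := by rw [← h2, φ.inv]
  have h2η : α₂ ≠ η := by
    rintro rfl
    exact hwz (h2z.symm.trans hηz)
  obtain ⟨φ', hφ', hc', hu', hv', hγz', -⟩ :=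
    safe_swap hG hadj φ hφ hηu hv hzu hzv (Or.inr hηz)
  have e1 : φ'.M γ z = z := hγz'.trans hηz
  obtain ⟨φ'', hφ'', hc'', hu'', hv'', hγz'', -⟩ :=
    safe_swap hG hadj φ' hφ' (γ := γ) (δ := α₂) ((hu' α₂).trans h2u) ((hv' γ).trans hv) hzu hzv
      (Or.inl e1)
  have e2 : φ'.M α₂ z = w := (hc' α₂ (hγ α₂ h2u) h2η z).trans h2z
  have e3 : φ''.M γ z = w := hγz''.trans e2
  have e4 : φ''.M γ w = z := by rw [← e3, φ''.inv]
  have e5 : φ''.M α₁ z = z :=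
    (hc'' α₁ (hγ α₁ h1u) h12 z).trans ((hc' α₁ (hγ α₁ h1u) hη.symm z).trans h1z)
  exact no_path hG hadj φ'' hφ'' ((hu'' α₁).trans ((hu' α₁).trans h1u))
    ((hv'' α₁).trans ((hv' α₁).trans h1)) ((hv'' γ).trans ((hv' γ).trans hv)) e4 hzv hzu e5

theorem kierstead [Finite V] [DecidableEq C] {G : SimpleGraph V} {u v w z : V}
    (hG : Bad C G) (hadj : G.Adj u v) (φ : Col C V) (hφ : Good φ G u v)
    {α₁ α₂ γ η₁ η₂ : C} (hv : φ.M γ v = v) (h1u : φ.M α₁ u = u) (h1 : φ.M α₁ v = w)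
    (h2u : φ.M α₂ u = u) (h2 : φ.M α₂ w = z) (hzu : z ≠ u) (hzv : z ≠ v)
    (hη : η₁ ≠ η₂) (hη1u : φ.M η₁ u = u) (hη2u : φ.M η₂ u = u)
    (hη1z : φ.M η₁ z = z) : φ.M η₂ z ≠ z := by
  intro hη2z
  have hγ : ∀ c, φ.M c u = u → c ≠ γ := by
    rintro c hc rfl
    exact no_common hG hadj φ hφ hc hv
  have h12 : α₁ ≠ α₂ := by
    rintro rfl
    apply hzv
    rw [← h2, ← h1, φ.inv]
  have hwz : w ≠ z := by
    intro hwz
    obtain ⟨φ', hφ', -, hu', hv', hγz', -⟩ :=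
      safe_swap hG hadj φ hφ hη1u hv hzu hzv (Or.inr hη1z)
    refine no_fan hG hadj φ' hφ' ((hu' α₁).trans h1u) ((hv' α₁).trans h1)
      ((hv' γ).trans hv) ?_
    rw [hwz]
    exact hγz'.trans hη1z
  have h2z : φ.M α₂ z = w := by rw [← h2, φ.inv]
  by_cases h1z : φ.M α₁ z = z
  · by_cases h : η₁ = α₁
    · have h' : η₂ ≠ α₁ := fun hh => hη (h.trans hh.symm)
      exact kier_caseA hG hadj φ hφ hv h1u h1 h2u h2 hzu hzv hwz hγ h12 h' hη2u hη2z h1z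
    · exact kier_caseA hG hadj φ hφ hv h1u h1 h2u h2 hzu hzv hwz hγ h12 h hη1u hη1z h1z
  · have hα1 : α₁ ≠ η₁ := by
      rintro rfl
      exact h1z hη1z
    have hα2 : α₁ ≠ η₂ := by
      rintro rfl
      exact h1z hη2z
    have h2η : α₂ ≠ η₁ := by
      rintro rfl
      exact hwz (h2z.symm.trans hη1z)
    obtain ⟨φ', hφ', hc', hu', hv', hγz', -⟩ :=
      safe_swap hG hadj φ hφ hη1u hv hzu hzv (Or.inr hη1z)
    have e1 : φ'.M γ z = z := hγz'.trans hη1z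
    obtain ⟨φ'', hφ'', hc'', hu'', hv'', -, hαz''⟩ :=
      safe_swap hG hadj φ' hφ' (γ := γ) (δ := α₁) ((hu' α₁).trans h1u) ((hv' γ).trans hv) hzu hzv
        (Or.inl e1)
    have e2 : φ''.M α₁ z = z := hαz''.trans e1
    have e3 : φ''.M η₂ z = z :=
      (hc'' η₂ (hγ η₂ hη2u) hα2.symm z).trans ((hc' η₂ (hγ η₂ hη2u) hη.symm z).trans hη2z)
    have e4 : φ''.M α₂ w = z :=
      (hc'' α₂ (hγ α₂ h2u) h12.symm w).trans ((hc' α₂ (hγ α₂ h2u) h2η w).trans h2)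
    have hγ'' : ∀ c, φ''.M c u = u → c ≠ γ := fun c hc =>
      hγ c (((hu'' c).trans (hu' c)).symm.trans hc)
    exact kier_caseA hG hadj φ'' hφ'' ((hv'' γ).trans ((hv' γ).trans hv))
      ((hu'' α₁).trans ((hu' α₁).trans h1u)) ((hv'' α₁).trans ((hv' α₁).trans h1))
      ((hu'' α₂).trans ((hu' α₂).trans h2u)) e4 hzu hzv hwz hγ'' h12 hα2.symm
      ((hu'' η₂).trans ((hu' η₂).trans hη2u)) e3 e2

end VizSize
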