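import Pool.Agent.Lib.MP_389031_co.K1
import Pool.Agent.Lib.MP_389031_co.K2
import Pool.Agent.Lib.MP_389031_co.K4
import Pool.Agent.Lib.MP_389031_co.K7

/-! # The chain claim -/

namespace VizSize

variable {C V : Type*}

theorem chain [Finite V] [DecidableEq C] {G : SimpleGraph V} {u v w z : V}
    (hG : Bad C G) (hadj : G.Adj u v) (φ : Col C V) (hφ : Good φ G u v)
    {α₁ β γ α η₁ η₂ : C} (hv : φ.M γ v = v) (h1u : φ.M α₁ u = u) (h1 : φ.M α₁ v = w)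
    (h2 : φ.M β w = z) (hzu : z ≠ u) (hzv : z ≠ v)
    (hαu : φ.M α u = u) (hαz : φ.M α z = z) (hα1 : α ≠ α₁)
    (hη : η₁ ≠ η₂) (hη1 : η₁ ≠ α) (hη2 : η₂ ≠ α) (hη1u : φ.M η₁ u = u)
    (hη2u : φ.M η₂ u = u) (hη1z : φ.M η₁ z = z) (hη2z : φ.M η₂ z = z) :
    φ.M β u ≠ u ∧ Reach (φ.M α) (φ.M β) u z := by
  have hβu : φ.M β u ≠ u := fun h =>
    kierstead hG hadj φ hφ hv h1u h1 h h2 hzu hzv hη hη1u hη2u hη1z hη2z
  refine ⟨hβu, ?_⟩
  by_contra hr
  have hαβ : α ≠ β := by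
    rintro rfl
    exact hβu hαu
  have hα₁β : α₁ ≠ β := by
    rintro rfl
    exact hβu h1u
  have hη1β : η₁ ≠ β := by
    rintro rfl
    exact hβu hη1u
  have hη2β : η₂ ≠ β := by
    rintro rfl
    exact hβu hη2u
  have huS : ¬ Reach (φ.M α) (φ.M β) z u := fun h =>
    hr (reach_symm _ _ (φ.inv α) (φ.inv β) h)
  have hzw : φ.M β z = w := by rw [← h2, φ.inv]
  have hwS : Reach (φ.M α) (φ.M β) z w :=
    Relation.ReflTransGen.tail Relation.ReflTransGen.refl (Or.inr hzw.symm)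
  obtain ⟨φ', g1, g2, g3, g4, g5⟩ := exists_swap φ hαβ {x | Reach (φ.M α) (φ.M β) z x}
    (fun x hx => Relation.ReflTransGen.tail hx (Or.inl rfl))
    (fun x hx => Relation.ReflTransGen.tail hx (Or.inr rfl))
  have hφ' : Good φ' G u v := by
    intro x y
    rw [g5 x y]
    exact hφ x y
  have hαu' : φ'.M α u = u := by rw [g1 α u huS, hαu]
  have hαw' : φ'.M α w = z := by rw [g3 w hwS, h2]
  have h1u' : φ'.M α₁ u = u := by rw [g2 α₁ hα1.symm hα₁β, h1u]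
  have h1' : φ'.M α₁ v = w := by rw [g2 α₁ hα1.symm hα₁β, h1]
  have hη1u' : φ'.M η₁ u = u := by rw [g2 η₁ hη1 hη1β, hη1u]
  have hη2u' : φ'.M η₂ u = u := by rw [g2 η₂ hη2 hη2β, hη2u]
  have hη1z' : φ'.M η₁ z = z := by rw [g2 η₁ hη1 hη1β, hη1z]
  have hη2z' : φ'.M η₂ z = z := by rw [g2 η₂ hη2 hη2β, hη2z]
  have hγα : γ ≠ α := by
    rintro rfl
    exact no_common hG hadj φ hφ hαu hv
  have hγ' : φ'.M γ v = v := by
    by_cases hγβ : γ = β
    · subst hγβ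
      by_cases hvS : Reach (φ.M α) (φ.M γ) z v
      · exfalso
        have h3 : φ'.M α v = v := by rw [g3 v hvS, hv]
        exact no_common hG hadj φ' hφ' hαu' h3
      · rw [g1 γ v hvS, hv]
    · rw [g2 γ hγα hγβ, hv]
  exact kierstead hG hadj φ' hφ' hγ' h1u' h1' hαu' hαw' hzu hzv hη hη1u' hη2u' hη1z' hη2z'

end VizSize
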