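import Pool.Agent.Lib.MP_389031_co.K1
import Pool.Agent.Lib.MP_389031_co.K4
import Pool.Agent.Lib.MP_389031_co.K6
import Pool.Agent.Lib.MP_389031_co.K8

/-! # K9: the counting step -/

namespace VizSize

namespace K9aux

variable {C V : Type*} [Fintype C] [DecidableEq V]

theorem mem_miss (φ : Col C V) (x : V) (c : C) : c ∈ miss φ x ↔ φ.M c x = x := by
  simp [miss]

/-- the colours leading from `w` to a vertex outside `{u, v, w}` -/
def out (φ : Col C V) (u v w : V) : Finset C :=
  Finset.univ.filter (fun β => φ.M β w ≠ w ∧ φ.M β w ≠ u ∧ φ.M β w ≠ v)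

theorem mem_out (φ : Col C V) (u v w : V) (β : C) :
    β ∈ out φ u v w ↔ φ.M β w ≠ w ∧ φ.M β w ≠ u ∧ φ.M β w ≠ v := by
  simp [out]

/-- at most one colour leads from `w` to a given vertex `t ≠ w` -/
theorem card_to_le [DecidableEq C] (φ : Col C V) {w t : V} (h : t ≠ w) :
    (Finset.univ.filter (fun β => φ.M β w = t)).card ≤ 1 := by
  rw [Finset.card_le_one]
  intro a ha b hb
  simp only [Finset.mem_filter, Finset.mem_univ, true_and] at ha hb
  by_contra hne
  have h1 := φ.prop a b w hne (ha.trans hb.symm)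
  exact h (ha.symm.trans h1)

theorem card_out [DecidableEq C] (φ : Col C V) {u v w : V} (hu : u ≠ w) (hv : v ≠ w) :
    Fintype.card C ≤ (out φ u v w).card + (miss φ w).card + 2 := by
  have h1 := card_to_le φ hu
  have h2 := card_to_le φ hv
  have h3 : (Finset.univ : Finset C) ⊆ ((out φ u v w ∪ miss φ w) ∪
      Finset.univ.filter (fun β => φ.M β w = u)) ∪ Finset.univ.filter (fun β => φ.M β w = v) := by
    intro β _
    simp only [Finset.mem_union, mem_out, mem_miss, Finset.mem_filter, Finset.mem_univ, true_and]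
    tauto
  have h4 := Finset.card_le_card h3
  have h5 := Finset.card_union_le ((out φ u v w ∪ miss φ w) ∪
      Finset.univ.filter (fun β => φ.M β w = u)) (Finset.univ.filter (fun β => φ.M β w = v))
  have h6 := Finset.card_union_le (out φ u v w ∪ miss φ w)
      (Finset.univ.filter (fun β => φ.M β w = u))
  have h7 := Finset.card_union_le (out φ u v w) (miss φ w)
  rw [Finset.card_univ] at h4
  omega

/-- the colour classes at the colours of `S`, counted from a set `X` of vertices -/
theorem sum_cov_ge [Fintype V] [DecidableEq C] (φ : Col C V) (S : Finset C) (X : Finset V) :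
    S.card * X.card ≤ ∑ c ∈ S, cov φ c + ∑ x ∈ X, (miss φ x ∩ S).card := by
  have h1 : ∑ c ∈ S, cov φ c = ∑ x : V, (S.filter (fun c => φ.M c x ≠ x)).card := by
    unfold cov
    simp only [Finset.card_filter]
    exact Finset.sum_comm
  have h2 : ∑ x ∈ X, (S.filter (fun c => φ.M c x ≠ x)).card ≤
      ∑ x : V, (S.filter (fun c => φ.M c x ≠ x)).card :=
    Finset.sum_le_sum_of_subset (Finset.subset_univ X)
  have h3 : S.card * X.card = ∑ x ∈ X, ((S.filter (fun c => φ.M c x ≠ x)).card +
      (miss φ x ∩ S).card) := by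
    rw [mul_comm, ← smul_eq_mul, ← Finset.sum_const]
    refine Finset.sum_congr rfl fun x _ => ?_
    have h4 : miss φ x ∩ S = S.filter (fun c => ¬ (φ.M c x ≠ x)) := by
      ext c
      simp only [Finset.mem_inter, mem_miss, Finset.mem_filter, not_not]
      tauto
    rw [h4]
    exact (Finset.card_filter_add_card_filter_not _).symm
  rw [h3, Finset.sum_add_distrib, h1]
  omega

/-- counting triples -/
theorem triple_count {C : Type*} [Fintype C] [DecidableEq C] (A : Finset C)
    (B : C → Finset C) (D : C → C → Finset C) :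
    ∑ α ∈ A, ∑ β ∈ B α, (D α β).card = (Finset.univ.filter (fun t : C × C × C =>
      t.1 ∈ A ∧ t.2.1 ∈ B t.1 ∧ t.2.2 ∈ D t.1 t.2.1)).card := by
  rw [Finset.card_filter, Fintype.sum_prod_type]
  have h1 : ∀ α : C, (∑ y : C × C, if α ∈ A ∧ y.1 ∈ B α ∧ y.2 ∈ D α y.1 then 1 else 0) =
      if α ∈ A then ∑ β ∈ B α, (D α β).card else 0 := by
    intro α
    by_cases h : α ∈ A
    · simp only [h, true_and, if_true]
      rw [Fintype.sum_prod_type]
      have h2 : ∀ β : C, (∑ a : C, if β ∈ B α ∧ a ∈ D α β then 1 else 0) =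
          if β ∈ B α then (D α β).card else 0 := by
        intro β
        by_cases h' : β ∈ B α
        · simp [h']
        · simp [h']
      simp only [h2]
      simp
    · simp [h]
  simp only [h1]
  simp

end K9aux

variable {C V : Type*} [Fintype C] [Fintype V] [DecidableEq C] [DecidableEq V]

open K9aux in
/-- K9: every colouring of `G - uv` has large colour classes at the colours missing at `u`. -/
theorem miss_cov {G : SimpleGraph V} {u v : V} (hG : Bad C G) (hadj : G.Adj u v)
    (φ : Col C V) (hφ : Good φ G u v) {γ : C} (hv : φ.M γ v = v) :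
    (miss φ u).card * (Fintype.card C + 2) + 3 ≤
      4 * Fintype.card C + ∑ c ∈ miss φ u, cov φ c := by
  classical
  have huv : u ≠ v := hadj.ne
  have mu : ∀ c, c ∈ miss φ u → φ.M c u = u := fun c h => (mem_miss φ u c).1 h
  have wv : ∀ α ∈ miss φ u, φ.M α v ≠ v := fun α hα => no_common hG hadj φ hφ (mu α hα)
  have wu : ∀ α ∈ miss φ u, φ.M α v ≠ u := by
    intro α hα h
    have h1 : φ.M α (φ.M α v) = v := φ.inv α v
    rw [h, mu α hα] at h1
    exact huv h1
  have winj : ∀ α ∈ miss φ u, ∀ α' ∈ miss φ u, φ.M α v = φ.M α' v → α = α' := by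
    intro α hα α' hα' h
    by_contra hne
    exact wv α hα (φ.prop α α' v hne h)
  have hγ0 : γ ∉ miss φ u := fun h => wv γ h hv
  have hwmiss : ∀ α ∈ miss φ u, ∀ η ∈ miss φ u, φ.M η (φ.M α v) ≠ φ.M α v := by
    intro α hα η hη
    exact fan_u hG hadj φ hφ (mu α hα) rfl hv (mu η hη)
  -- the fan
  have f1 : ∑ α ∈ miss φ u, (miss φ (φ.M α v)).card + (miss φ u).card + 1 ≤
      Fintype.card C := by
    have hd : ∀ α ∈ miss φ u, ∀ α' ∈ miss φ u, α ≠ α' →
        Disjoint (miss φ (φ.M α v)) (miss φ (φ.M α' v)) := by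
      intro α hα α' hα' hne
      rw [Finset.disjoint_left]
      intro η h1 h2
      exact fan_pair hG hadj φ hφ hne (mu α hα) (mu α' hα') rfl rfl hv
        ((mem_miss φ _ η).1 h1) ((mem_miss φ _ η).1 h2)
    rw [← Finset.card_biUnion hd]
    have hd2 : Disjoint ((miss φ u).biUnion fun α => miss φ (φ.M α v))
        (insert γ (miss φ u)) := by
      rw [Finset.disjoint_left]
      intro η h1 h2
      rw [Finset.mem_biUnion] at h1
      obtain ⟨α, hα, h1⟩ := h1
      rw [mem_miss] at h1
      rcases Finset.mem_insert.1 h2 with h2 | h2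
      · subst h2
        exact no_fan hG hadj φ hφ (mu α hα) rfl hv h1
      · exact hwmiss α hα η h2 h1
    have h3 := Finset.card_union_of_disjoint hd2
    rw [Finset.card_insert_of_notMem hγ0] at h3
    have h4 := Finset.card_le_univ (((miss φ u).biUnion fun α => miss φ (φ.M α v)) ∪
      insert γ (miss φ u))
    omega
  by_cases hq : (miss φ u).card = 0
  · have : 0 < Fintype.card C := Fintype.card_pos_iff.2 ⟨γ⟩
    rw [hq]
    omega
  have hne : (miss φ u).Nonempty := Finset.card_pos.1 (Nat.pos_of_ne_zero hq)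
  -- the triples
  have f2 : ∑ α ∈ miss φ u, ∑ β ∈ out φ u v (φ.M α v),
      (miss φ (φ.M β (φ.M α v)) ∩ miss φ u).card ≤
      (miss φ u).card * (Fintype.card C - (miss φ u).card) +
        (miss φ u).card * (2 * (Fintype.card C - 1)) := by
    -- number of third colours
    have g1 : ∀ α ∈ miss φ u, ∀ β ∈ out φ u v (φ.M α v),
        (miss φ (φ.M β (φ.M α v)) ∩ miss φ u).card ≤
        ((miss φ u).filter (fun a => a ≠ α ∧ φ.M a (φ.M β (φ.M α v)) = φ.M β (φ.M α v) ∧
          3 ≤ (miss φ (φ.M β (φ.M α v)) ∩ miss φ u).card)).card + 2 := by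
      intro α hα β hβ
      by_cases h3 : 3 ≤ (miss φ (φ.M β (φ.M α v)) ∩ miss φ u).card
      · have : miss φ (φ.M β (φ.M α v)) ∩ miss φ u ⊆ insert α
            ((miss φ u).filter (fun a => a ≠ α ∧ φ.M a (φ.M β (φ.M α v)) = φ.M β (φ.M α v) ∧
          3 ≤ (miss φ (φ.M β (φ.M α v)) ∩ miss φ u).card)) := by
          intro a ha
          rw [Finset.mem_inter, mem_miss] at ha
          rw [Finset.mem_insert, Finset.mem_filter]
          by_cases hα' : a = α
          · exact Or.inl hα'
          · exact Or.inr ⟨ha.2, hα', ha.1, h3⟩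
        have h4 := Finset.card_le_card this
        have h5 := Finset.card_insert_le α
            ((miss φ u).filter (fun a => a ≠ α ∧ φ.M a (φ.M β (φ.M α v)) = φ.M β (φ.M α v) ∧
          3 ≤ (miss φ (φ.M β (φ.M α v)) ∩ miss φ u).card))
        omega
      · omega
    have g2 : ∀ α ∈ miss φ u, (out φ u v (φ.M α v)).card ≤ Fintype.card C - 1 := by
      intro α hα
      have h1 : out φ u v (φ.M α v) ⊆ Finset.univ.erase α := by
        intro β hβ
        rw [mem_out] at hβ
        rw [Finset.mem_erase]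
        refine ⟨?_, Finset.mem_univ _⟩
        rintro rfl
        exact hβ.2.2 (φ.inv _ _)
      have h2 := Finset.card_le_card h1
      rwa [Finset.card_erase_of_mem (Finset.mem_univ _), Finset.card_univ] at h2
    -- the set of triples
    let T : Finset (C × C × C) := Finset.univ.filter (fun t => t.1 ∈ miss φ u ∧
      t.2.1 ∈ out φ u v (φ.M t.1 v) ∧ t.2.2 ∈ miss φ u ∧ t.2.2 ≠ t.1 ∧
      φ.M t.2.2 (φ.M t.2.1 (φ.M t.1 v)) = φ.M t.2.1 (φ.M t.1 v) ∧
      3 ≤ (miss φ (φ.M t.2.1 (φ.M t.1 v)) ∩ miss φ u).card)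
    have memT : ∀ α β a, (α, β, a) ∈ T ↔ α ∈ miss φ u ∧
      β ∈ out φ u v (φ.M α v) ∧ a ∈ miss φ u ∧ a ≠ α ∧
      φ.M a (φ.M β (φ.M α v)) = φ.M β (φ.M α v) ∧
      3 ≤ (miss φ (φ.M β (φ.M α v)) ∩ miss φ u).card := by
      intro α β a
      simp [T]
    have g3 : ∑ α ∈ miss φ u, ∑ β ∈ out φ u v (φ.M α v),
        ((miss φ u).filter (fun a => a ≠ α ∧ φ.M a (φ.M β (φ.M α v)) = φ.M β (φ.M α v) ∧
          3 ≤ (miss φ (φ.M β (φ.M α v)) ∩ miss φ u).card)).card = T.card := by
      rw [triple_count]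
      refine congrArg Finset.card (Finset.filter_congr fun t _ => ?_)
      rw [Finset.mem_filter]
    -- the chain
    have g4 : ∀ α β a, (α, β, a) ∈ T → φ.M β u ≠ u ∧
        Reach (φ.M a) (φ.M β) u (φ.M β (φ.M α v)) := by
      intro α β a h
      rw [memT] at h
      obtain ⟨hα, hβ, ha, haα, haz, h3⟩ := h
      rw [mem_out] at hβ
      -- two further colours
      have h4 : 2 ≤ ((miss φ (φ.M β (φ.M α v)) ∩ miss φ u).erase a).card := by
        have := Finset.pred_card_le_card_erase
          (s := miss φ (φ.M β (φ.M α v)) ∩ miss φ u) (a := a)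
        omega
      obtain ⟨η₁, h1, η₂, h2, hη⟩ := Finset.one_lt_card.1 h4
      rw [Finset.mem_erase, Finset.mem_inter, mem_miss] at h1 h2
      exact chain hG hadj φ hφ hv (mu α hα) rfl rfl hβ.2.1 hβ.2.2 (mu a ha) haz haα hη
        h1.1 h2.1 (mu _ h1.2.2) (mu _ h2.2.2) h1.2.1 h2.2.1
    have g5 : T.card ≤ (miss φ u).card * (Fintype.card C - (miss φ u).card) := by
      have h1 : ((miss φ u) ×ˢ (miss φ u)ᶜ).card =
          (miss φ u).card * (Fintype.card C - (miss φ u).card) := by
        rw [Finset.card_product, Finset.card_compl]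
      rw [← h1]
      refine Finset.card_le_card_of_injOn (fun t => (t.2.2, t.2.1)) ?_ ?_
      · rintro ⟨α, β, a⟩ h
        have h2 := g4 α β a h
        have h3 := (memT α β a).1 h
        simp only [Finset.coe_product, Set.mem_prod, Finset.mem_coe, Finset.mem_compl, mem_miss]
        exact ⟨mu _ h3.2.2.1, h2.1⟩
      · rintro ⟨α, β, a⟩ h ⟨α', β', a'⟩ h' heq
        simp only [Prod.mk.injEq] at heq
        obtain ⟨rfl, rfl⟩ := heq
        have h2 := g4 _ _ _ h
        have h2' := g4 _ _ _ h'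
        have h3 := (memT _ _ _).1 h
        have h3' := (memT _ _ _).1 h'
        have h4 : φ.M β (φ.M α v) = φ.M β (φ.M α' v) :=
          three_ends (φ.M a) (φ.M β) (φ.inv a) (φ.inv β) h2.2 h2'.2
            (Or.inl (mu a h3.2.2.1)) (Or.inl h3.2.2.2.2.1) (Or.inl h3'.2.2.2.2.1)
            ((mem_out φ _ _ _ _).1 h3.2.1).2.1 ((mem_out φ _ _ _ _).1 h3'.2.1).2.1
        have h5 : φ.M α v = φ.M α' v := by
          rw [← φ.inv β (φ.M α v), h4, φ.inv]
        rw [winj α h3.1 α' h3'.1 h5]
    calc ∑ α ∈ miss φ u, ∑ β ∈ out φ u v (φ.M α v),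
          (miss φ (φ.M β (φ.M α v)) ∩ miss φ u).card
        ≤ ∑ α ∈ miss φ u, ∑ β ∈ out φ u v (φ.M α v),
          (((miss φ u).filter (fun a => a ≠ α ∧ φ.M a (φ.M β (φ.M α v)) = φ.M β (φ.M α v) ∧
          3 ≤ (miss φ (φ.M β (φ.M α v)) ∩ miss φ u).card)).card + 2) :=
          Finset.sum_le_sum fun α hα => Finset.sum_le_sum fun β hβ => g1 α hα β hβ
      _ = T.card + ∑ α ∈ miss φ u, (out φ u v (φ.M α v)).card * 2 := by
          rw [← g3, ← Finset.sum_add_distrib]
          refine Finset.sum_congr rfl fun α _ => ?_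
          rw [Finset.sum_add_distrib, Finset.sum_const, smul_eq_mul]
      _ ≤ (miss φ u).card * (Fintype.card C - (miss φ u).card) +
          ∑ α ∈ miss φ u, (Fintype.card C - 1) * 2 := by
          refine add_le_add g5 (Finset.sum_le_sum fun α hα => Nat.mul_le_mul_right 2 (g2 α hα))
      _ = _ := by
          rw [Finset.sum_const, smul_eq_mul, mul_comm (Fintype.card C - 1) 2]
  -- a good colour
  have f3 : ∃ α ∈ miss φ u, (miss φ u).card * (miss φ (φ.M α v)).card +
      (∑ β ∈ out φ u v (φ.M α v), (miss φ (φ.M β (φ.M α v)) ∩ miss φ u).card) +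
      2 * (miss φ u).card + 3 ≤ 4 * Fintype.card C := by
    apply Finset.exists_le_of_sum_le hne
    rw [Finset.sum_add_distrib, Finset.sum_add_distrib, Finset.sum_add_distrib,
      ← Finset.mul_sum, Finset.sum_const, Finset.sum_const, Finset.sum_const, smul_eq_mul,
      smul_eq_mul, smul_eq_mul]
    obtain ⟨r, hr⟩ : ∃ r, ∑ α ∈ miss φ u, (miss φ (φ.M α v)).card = r := ⟨_, rfl⟩
    obtain ⟨s, hs⟩ : ∃ s, ∑ α ∈ miss φ u, ∑ β ∈ out φ u v (φ.M α v),
      (miss φ (φ.M β (φ.M α v)) ∩ miss φ u).card = s := ⟨_, rfl⟩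
    rw [hr] at f1 ⊢
    rw [hs] at f2 ⊢
    obtain ⟨k, hk⟩ := Nat.exists_eq_add_of_le f1
    rw [hk] at f2 ⊢
    have e1 : r + (miss φ u).card + 1 + k - (miss φ u).card = r + 1 + k := by omega
    have e2 : r + (miss φ u).card + 1 + k - 1 = r + (miss φ u).card + k := by omega
    rw [e1, e2] at f2
    nlinarith [f2]
  obtain ⟨α, hα, f4⟩ := f3
  have c1 := card_out φ (u := u) (v := v) (w := φ.M α v) (wu α hα).symm (wv α hα).symm
  -- count
  have f5 := sum_cov_ge φ (miss φ u) (insert v (insert (φ.M α v)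
    ((out φ u v (φ.M α v)).image (fun β => φ.M β (φ.M α v)))))
  have n1 : φ.M α v ∉ (out φ u v (φ.M α v)).image (fun β => φ.M β (φ.M α v)) := by
    rw [Finset.mem_image]
    rintro ⟨β, hβ, h⟩
    exact ((mem_out φ _ _ _ _).1 hβ).1 h
  have n2 : v ∉ insert (φ.M α v)
      ((out φ u v (φ.M α v)).image (fun β => φ.M β (φ.M α v))) := by
    rw [Finset.mem_insert, Finset.mem_image]
    rintro (h | ⟨β, hβ, h⟩)
    · exact wv α hα h.symm
    · exact ((mem_out φ _ _ _ _).1 hβ).2.2 h
  have n3 : Set.InjOn (fun β => φ.M β (φ.M α v)) (out φ u v (φ.M α v)) := by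
    intro β hβ β' hβ' h
    by_contra hne'
    exact ((mem_out φ _ _ _ _).1 hβ).1 (φ.prop β β' _ hne' h)
  have z1 : miss φ v ∩ miss φ u = ∅ := by
    rw [← Finset.disjoint_iff_inter_eq_empty, Finset.disjoint_left]
    intro c h1 h2
    exact wv c h2 ((mem_miss φ v c).1 h1)
  have z2 : miss φ (φ.M α v) ∩ miss φ u = ∅ := by
    rw [← Finset.disjoint_iff_inter_eq_empty, Finset.disjoint_left]
    intro c h1 h2
    exact hwmiss α hα c h2 ((mem_miss φ _ c).1 h1)
  rw [Finset.sum_insert n2, Finset.sum_insert n1, Finset.sum_image n3,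
    Finset.card_insert_of_notMem n2, Finset.card_insert_of_notMem n1,
    Finset.card_image_of_injOn n3, z1, z2, Finset.card_empty] at f5
  have c2 : (miss φ u).card * Fintype.card C ≤ (miss φ u).card *
      ((out φ u v (φ.M α v)).card + (miss φ (φ.M α v)).card + 2) := Nat.mul_le_mul_left _ c1
  nlinarith [f5, f4, c2]

end VizSize
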