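import Pool.Agent.Lib.MP_389031_co.DefsB
import Pool.Agent.Lib.MP_389031_co.K7
import Pool.Agent.Lib.MP_389031_co.K9

/-! # L2: the count for the colours missing at `u` -/

namespace VizSize

open Finset

variable {C V : Type*} [Fintype C] [Fintype V] [DecidableEq C] [DecidableEq V]

namespace L2aux

open K9aux

theorem sum_RR {G : SimpleGraph V} [DecidableRel G.Adj] {u v w : V} (φ : Col C V)
    (hφ : Good φ G u v) (hwu : w ≠ u) (hwv : w ≠ v) (f : V → ℕ) :
    ∑ z ∈ RR G u v w, f z = ∑ β ∈ out φ u v w, f (φ.M β w) := by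
  have h1 : RR G u v w = (out φ u v w).image (fun β => φ.M β w) := by
    ext z
    rw [RR, Finset.mem_filter, Finset.mem_image]
    constructor
    · rintro ⟨_, ha, hzu, hzv⟩
      have h2 : s(w, z) ≠ s(u, v) := by
        intro h
        rw [Sym2.eq_iff] at h
        rcases h with h | h
        · exact hwu h.1
        · exact hwv h.1
      obtain ⟨hne, c, hc⟩ := (hφ w z).2 ⟨ha, h2⟩
      refine ⟨c, ?_, hc⟩
      rw [mem_out, hc]
      exact ⟨hne.symm, hzu, hzv⟩
    · rintro ⟨β, hβ, rfl⟩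
      rw [mem_out] at hβ
      exact ⟨Finset.mem_univ _, ((hφ w (φ.M β w)).1 ⟨hβ.1.symm, β, rfl⟩).1, hβ.2⟩
  have h3 : Set.InjOn (fun β => φ.M β w) (out φ u v w) := by
    intro β hβ β' hβ' h
    by_contra hne'
    exact ((mem_out φ _ _ _ _).1 hβ).1 (φ.prop β β' _ hne' h)
  rw [h1, Finset.sum_image h3]

end L2aux

open K9aux L2aux in
/-- L2: the count for the colours missing at `u` -/
theorem ff_self {G : SimpleGraph V} [DecidableRel G.Adj] {u v : V} (hG : Bad C G)
    (hadj : G.Adj u v) (φ : Col C V) (hφ : Good φ G u v) (hv : (miss φ v).Nonempty) :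
    ff φ G u v (miss φ u) + 2 * (miss φ u).card ^ 2 + (miss φ u).card ≤
      3 * Fintype.card C * (miss φ u).card := by
  classical
  obtain ⟨γ, hγ⟩ := hv
  rw [mem_miss] at hγ
  have huv : u ≠ v := hadj.ne
  have mu : ∀ c, c ∈ miss φ u → φ.M c u = u := fun c h => (mem_miss φ u c).1 h
  have wv : ∀ α ∈ miss φ u, φ.M α v ≠ v := fun α hα => no_common hG hadj φ hφ (mu α hα)
  have wu : ∀ α ∈ miss φ u, φ.M α v ≠ u := by
    intro α hα h
    have h1 : φ.M α (φ.M α v) = v := φ.inv α v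
    rw [h, mu α hα] at h1
    exact huv h1
  have winj : ∀ α ∈ miss φ u, ∀ α' ∈ miss φ u, φ.M α v = φ.M α' v → α = α' := by
    intro α hα α' hα' h
    by_contra hne
    exact wv α hα (φ.prop α α' v hne h)
  have hff : ff φ G u v (miss φ u) = ∑ α ∈ miss φ u, ∑ β ∈ out φ u v (φ.M α v),
      (miss φ (φ.M β (φ.M α v)) ∩ miss φ u).card := by
    unfold ff
    refine Finset.sum_congr rfl fun α hα => ?_
    exact sum_RR φ hφ (wu α hα) (wv α hα) (fun z => (miss φ z ∩ miss φ u).card)
  -- colours missing at `u`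
  have k1 : ∀ α ∈ miss φ u, ∀ β ∈ out φ u v (φ.M α v), β ∈ miss φ u →
      (miss φ (φ.M β (φ.M α v)) ∩ miss φ u).card ≤ 1 := by
    intro α hα β hβ hβu
    rw [mem_out] at hβ
    rw [Finset.card_le_one]
    intro a ha b hb
    rw [Finset.mem_inter, mem_miss] at ha hb
    by_contra hne
    exact kierstead hG hadj φ hφ hγ (mu α hα) rfl (mu β hβu) rfl hβ.2.1 hβ.2.2 hne
      (mu a ha.2) (mu b hb.2) ha.1 hb.1
  have k2 : ∀ α ∈ miss φ u, ((out φ u v (φ.M α v)).filter (fun β => β ∈ miss φ u)).card ≤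
      (miss φ u).card - 1 := by
    intro α hα
    have h1 : (out φ u v (φ.M α v)).filter (fun β => β ∈ miss φ u) ⊆ (miss φ u).erase α := by
      intro β hβ
      rw [Finset.mem_filter, mem_out] at hβ
      rw [Finset.mem_erase]
      refine ⟨?_, hβ.2⟩
      rintro rfl
      exact hβ.1.2.2 (φ.inv _ _)
    have h2 := Finset.card_le_card h1
    rwa [Finset.card_erase_of_mem hα] at h2
  have k3 : ∀ α ∈ miss φ u, ((out φ u v (φ.M α v)).filter (fun β => ¬ β ∈ miss φ u)).card ≤
      Fintype.card C - (miss φ u).card := by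
    intro α hα
    have h1 : (out φ u v (φ.M α v)).filter (fun β => ¬ β ∈ miss φ u) ⊆ (miss φ u)ᶜ := by
      intro β hβ
      rw [Finset.mem_filter] at hβ
      exact Finset.mem_compl.2 hβ.2
    have h2 := Finset.card_le_card h1
    rwa [Finset.card_compl] at h2
  -- number of third colours
  have g1 : ∀ α ∈ miss φ u, ∀ β ∈ out φ u v (φ.M α v),
      (miss φ (φ.M β (φ.M α v)) ∩ miss φ u).card ≤
      ((miss φ u).filter (fun a => a ≠ α ∧ φ.M a (φ.M β (φ.M α v)) = φ.M β (φ.M α v) ∧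
        3 ≤ (miss φ (φ.M β (φ.M α v)) ∩ miss φ u).card)).card + 2 := by
    intro α hα β hβ
    by_cases h3 : 3 ≤ (miss φ (φ.M β (φ.M α v)) ∩ miss φ u).card
    · have : miss φ (φ.M β (φ.M α v)) ∩ miss φ u ⊆ insert α
          ((miss φ u).filter (fun a => a ≠ α ∧ φ.M a (φ.M β (φ.M α v)) = φ.M β (φ.M α v) ∧
        3 ≤ (miss φ (φ.M β (φ.M α v)) ∩ miss φ u).card)) := by
        intro a ha
        rw [Finset.mem_inter, mem_miss] at ha
        rw [Finset.mem_insert, Finset.mem_filter]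
        by_cases hα' : a = α
        · exact Or.inl hα'
        · exact Or.inr ⟨ha.2, hα', ha.1, h3⟩
      have h4 := Finset.card_le_card this
      have h5 := Finset.card_insert_le α
          ((miss φ u).filter (fun a => a ≠ α ∧ φ.M a (φ.M β (φ.M α v)) = φ.M β (φ.M α v) ∧
        3 ≤ (miss φ (φ.M β (φ.M α v)) ∩ miss φ u).card))
      omega
    · omega
  -- the set of triples
  let T : Finset (C × C × C) := Finset.univ.filter (fun t => t.1 ∈ miss φ u ∧
    t.2.1 ∈ out φ u v (φ.M t.1 v) ∧ t.2.2 ∈ miss φ u ∧ t.2.2 ≠ t.1 ∧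
    φ.M t.2.2 (φ.M t.2.1 (φ.M t.1 v)) = φ.M t.2.1 (φ.M t.1 v) ∧
    3 ≤ (miss φ (φ.M t.2.1 (φ.M t.1 v)) ∩ miss φ u).card)
  have memT : ∀ α β a, (α, β, a) ∈ T ↔ α ∈ miss φ u ∧
    β ∈ out φ u v (φ.M α v) ∧ a ∈ miss φ u ∧ a ≠ α ∧
    φ.M a (φ.M β (φ.M α v)) = φ.M β (φ.M α v) ∧
    3 ≤ (miss φ (φ.M β (φ.M α v)) ∩ miss φ u).card := by
    intro α β a
    simp [T]
  have g3 : ∑ α ∈ miss φ u, ∑ β ∈ out φ u v (φ.M α v),
      ((miss φ u).filter (fun a => a ≠ α ∧ φ.M a (φ.M β (φ.M α v)) = φ.M β (φ.M α v) ∧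
        3 ≤ (miss φ (φ.M β (φ.M α v)) ∩ miss φ u).card)).card = T.card := by
    rw [triple_count]
    refine congrArg Finset.card (Finset.filter_congr fun t _ => ?_)
    rw [Finset.mem_filter]
  -- the chain
  have g4 : ∀ α β a, (α, β, a) ∈ T → φ.M β u ≠ u ∧
      Reach (φ.M a) (φ.M β) u (φ.M β (φ.M α v)) := by
    intro α β a h
    rw [memT] at h
    obtain ⟨hα, hβ, ha, haα, haz, h3⟩ := h
    rw [mem_out] at hβ
    have h4 : 2 ≤ ((miss φ (φ.M β (φ.M α v)) ∩ miss φ u).erase a).card := by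
      have := Finset.pred_card_le_card_erase
        (s := miss φ (φ.M β (φ.M α v)) ∩ miss φ u) (a := a)
      omega
    obtain ⟨η₁, h1, η₂, h2, hη⟩ := Finset.one_lt_card.1 h4
    rw [Finset.mem_erase, Finset.mem_inter, mem_miss] at h1 h2
    exact chain hG hadj φ hφ hγ (mu α hα) rfl rfl hβ.2.1 hβ.2.2 (mu a ha) haz haα hη
      h1.1 h2.1 (mu _ h1.2.2) (mu _ h2.2.2) h1.2.1 h2.2.1
  have g5 : T.card ≤ (miss φ u).card * (Fintype.card C - (miss φ u).card) := by
    have h1 : ((miss φ u) ×ˢ (miss φ u)ᶜ).card =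
        (miss φ u).card * (Fintype.card C - (miss φ u).card) := by
      rw [Finset.card_product, Finset.card_compl]
    rw [← h1]
    refine Finset.card_le_card_of_injOn (fun t => (t.2.2, t.2.1)) ?_ ?_
    · rintro ⟨α, β, a⟩ h
      have h2 := g4 α β a h
      have h3 := (memT α β a).1 h
      simp only [Finset.coe_product, Set.mem_prod, Finset.mem_coe, Finset.mem_compl, mem_miss]
      exact ⟨mu _ h3.2.2.1, h2.1⟩
    · rintro ⟨α, β, a⟩ h ⟨α', β', a'⟩ h' heq
      simp only [Prod.mk.injEq] at heq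
      obtain ⟨rfl, rfl⟩ := heq
      have h2 := g4 _ _ _ h
      have h2' := g4 _ _ _ h'
      have h3 := (memT _ _ _).1 h
      have h3' := (memT _ _ _).1 h'
      have h4 : φ.M β (φ.M α v) = φ.M β (φ.M α' v) :=
        three_ends (φ.M a) (φ.M β) (φ.inv a) (φ.inv β) h2.2 h2'.2
          (Or.inl (mu a h3.2.2.1)) (Or.inl h3.2.2.2.2.1) (Or.inl h3'.2.2.2.2.1)
          ((mem_out φ _ _ _ _).1 h3.2.1).2.1 ((mem_out φ _ _ _ _).1 h3'.2.1).2.1
      have h5 : φ.M α v = φ.M α' v := by
        rw [← φ.inv β (φ.M α v), h4, φ.inv]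
      rw [winj α h3.1 α' h3'.1 h5]
  have hmain : ff φ G u v (miss φ u) ≤ T.card + (miss φ u).card * ((miss φ u).card - 1) +
      (miss φ u).card * (2 * (Fintype.card C - (miss φ u).card)) := by
    rw [hff]
    calc ∑ α ∈ miss φ u, ∑ β ∈ out φ u v (φ.M α v),
          (miss φ (φ.M β (φ.M α v)) ∩ miss φ u).card
        ≤ ∑ α ∈ miss φ u, ∑ β ∈ out φ u v (φ.M α v),
          (((miss φ u).filter (fun a => a ≠ α ∧ φ.M a (φ.M β (φ.M α v)) = φ.M β (φ.M α v) ∧
          3 ≤ (miss φ (φ.M β (φ.M α v)) ∩ miss φ u).card)).card +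
            ((if β ∈ miss φ u then 1 else 0) + if ¬ β ∈ miss φ u then 2 else 0)) := by
          refine Finset.sum_le_sum fun α hα => Finset.sum_le_sum fun β hβ => ?_
          by_cases h : β ∈ miss φ u
          · rw [if_pos h, if_neg (not_not.2 h)]
            have := k1 α hα β hβ h
            omega
          · rw [if_neg h, if_pos h]
            have := g1 α hα β hβ
            omega
      _ = T.card + ∑ α ∈ miss φ u,
            (((out φ u v (φ.M α v)).filter (fun β => β ∈ miss φ u)).card +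
              ((out φ u v (φ.M α v)).filter (fun β => ¬ β ∈ miss φ u)).card * 2) := by
          rw [← g3, ← Finset.sum_add_distrib]
          refine Finset.sum_congr rfl fun α _ => ?_
          rw [Finset.sum_add_distrib, Finset.sum_add_distrib, ← Finset.sum_filter,
            ← Finset.sum_filter, Finset.sum_const, Finset.sum_const, smul_eq_mul, smul_eq_mul,
            mul_one]
      _ ≤ T.card + ∑ α ∈ miss φ u,
            (((miss φ u).card - 1) + (Fintype.card C - (miss φ u).card) * 2) := by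
          refine add_le_add le_rfl (Finset.sum_le_sum fun α hα => ?_)
          exact add_le_add (k2 α hα) (Nat.mul_le_mul_right 2 (k3 α hα))
      _ = _ := by
          rw [Finset.sum_const, smul_eq_mul, mul_comm (Fintype.card C - (miss φ u).card) 2,
            Nat.mul_add]
          ring
  have hqm : (miss φ u).card ≤ Fintype.card C := Finset.card_le_univ _
  obtain ⟨k, hk⟩ := Nat.exists_eq_add_of_le hqm
  have e1 : Fintype.card C - (miss φ u).card = k := by omega
  rw [e1] at hmain g5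
  rw [hk]
  rcases Nat.eq_zero_or_pos (miss φ u).card with h0 | h0
  · rw [h0] at hmain g5 ⊢
    simp only [zero_mul, add_zero, mul_zero] at hmain g5 ⊢
    omega
  · obtain ⟨r, hr⟩ : ∃ r, (miss φ u).card = r + 1 := ⟨(miss φ u).card - 1, by omega⟩
    rw [hr] at hmain g5 ⊢
    rw [Nat.add_sub_cancel] at hmain
    nlinarith

end VizSize
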