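import Pool.Agent.Lib.MP_389031_co.DefsB
import Pool.Agent.Lib.MP_389031_co.K1
import Pool.Agent.Lib.MP_389031_co.K2
import Pool.Agent.Lib.MP_389031_co.K4
import Pool.Agent.Lib.MP_389031_co.K6
import Pool.Agent.Lib.MP_389031_co.L2

/-! # L3: the count for any set of at most `|miss u|` colours -/

namespace VizSize

open Finset

variable {C V : Type*} [Fintype C] [Fintype V] [DecidableEq C] [DecidableEq V]

omit [Fintype V] [DecidableEq C] in
private theorem L3_mem_miss (φ : Col C V) (x : V) (c : C) : c ∈ miss φ x ↔ φ.M c x = x := by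
  simp [miss]

private theorem L3_mono (φ : Col C V) (G : SimpleGraph V) [DecidableRel G.Adj] (u v : V)
    {B B' : Finset C} (h : B ⊆ B') : ff φ G u v B ≤ ff φ G u v B' := by
  unfold ff
  refine Finset.sum_le_sum fun α _ => Finset.sum_le_sum fun z _ => ?_
  exact Finset.card_le_card (Finset.inter_subset_inter_left h)

omit [Fintype C] [DecidableEq C] [DecidableEq V] in
/-- at most three vertices (other than `u`) missing `β` in the components of `u`, `v` -/
private theorem L3_ends (φ : Col C V) {u v : V} {α₀ β : C} (hu : φ.M α₀ u = u)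
    (T : Finset V) (hT : ∀ z ∈ T, z ≠ u ∧ φ.M β z = z ∧
      (Reach (φ.M α₀) (φ.M β) u z ∨ Reach (φ.M α₀) (φ.M β) v z)) : T.card ≤ 3 := by
  classical
  have h1 : (T.filter (fun z => Reach (φ.M α₀) (φ.M β) u z)).card ≤ 1 := by
    rw [Finset.card_le_one]
    intro y hy z hz
    rw [Finset.mem_filter] at hy hz
    exact three_ends (φ.M α₀) (φ.M β) (φ.inv α₀) (φ.inv β) hy.2 hz.2 (Or.inl hu)
      (Or.inr (hT y hy.1).2.1) (Or.inr (hT z hz.1).2.1) (hT y hy.1).1 (hT z hz.1).1
  have h2 : (T.filter (fun z => ¬ Reach (φ.M α₀) (φ.M β) u z)).card ≤ 2 := by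
    by_contra hcon
    push Not at hcon
    obtain ⟨x, y, z, hx, hy, hz, hxy, hxz, hyz⟩ := Finset.two_lt_card_iff.1 hcon
    rw [Finset.mem_filter] at hx hy hz
    have rx := (hT x hx.1).2.2.resolve_left hx.2
    have ry := (hT y hy.1).2.2.resolve_left hy.2
    have rz := (hT z hz.1).2.2.resolve_left hz.2
    have rxv : Reach (φ.M α₀) (φ.M β) x v := reach_symm _ _ (φ.inv α₀) (φ.inv β) rx
    exact hyz (three_ends (φ.M α₀) (φ.M β) (φ.inv α₀) (φ.inv β)
      (Relation.ReflTransGen.trans rxv ry) (Relation.ReflTransGen.trans rxv rz)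
      (Or.inr (hT x hx.1).2.1) (Or.inr (hT y hy.1).2.1) (Or.inr (hT z hz.1).2.1)
      hxy.symm hxz.symm)
  have h3 := Finset.card_filter_add_card_filter_not (s := T)
    (fun z => Reach (φ.M α₀) (φ.M β) u z)
  omega

/-- one exchange step -/
private theorem L3_step {G : SimpleGraph V} [DecidableRel G.Adj] {u v : V}
    (φ : Col C V) (hφ : Good φ G u v) (B : Finset C) {α₀ β : C} (hα : α₀ ∈ miss φ u)
    (hαB : α₀ ∉ B) (hβ : β ∈ B) :
    ∃ φ' : Col C V, Good φ' G u v ∧ (∀ c, φ'.M c u = φ.M c u) ∧ (∀ c, φ'.M c v = φ.M c v) ∧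
      ff φ G u v B ≤ ff φ' G u v (insert α₀ (B.erase β)) + 3 * (miss φ u).card := by
  classical
  have hne : α₀ ≠ β := fun e => hαB (e ▸ hβ)
  have hu0 : φ.M α₀ u = u := (L3_mem_miss φ u α₀).1 hα
  set S : Set V := {x | ¬ Reach (φ.M α₀) (φ.M β) u x ∧ ¬ Reach (φ.M α₀) (φ.M β) v x} with hS
  have hSα : ∀ x ∈ S, φ.M α₀ x ∈ S := by
    intro x hx
    refine ⟨fun h => hx.1 (Relation.ReflTransGen.tail h (Or.inl (φ.inv α₀ x).symm)),
      fun h => hx.2 (Relation.ReflTransGen.tail h (Or.inl (φ.inv α₀ x).symm))⟩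
  have hSβ : ∀ x ∈ S, φ.M β x ∈ S := by
    intro x hx
    refine ⟨fun h => hx.1 (Relation.ReflTransGen.tail h (Or.inr (φ.inv β x).symm)),
      fun h => hx.2 (Relation.ReflTransGen.tail h (Or.inr (φ.inv β x).symm))⟩
  obtain ⟨φ', e1, e2, e3, e4, e5⟩ := exists_swap φ hne S hSα hSβ
  have huS : u ∉ S := fun h => h.1 Relation.ReflTransGen.refl
  have hvS : v ∉ S := fun h => h.2 Relation.ReflTransGen.refl
  have hu' : ∀ c, φ'.M c u = φ.M c u := fun c => e1 c u huS
  have hv' : ∀ c, φ'.M c v = φ.M c v := fun c => e1 c v hvS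
  refine ⟨φ', ?_, hu', hv', ?_⟩
  · intro x y
    rw [e5, hφ x y]
  have hmu : miss φ' u = miss φ u := by
    ext c
    rw [L3_mem_miss, L3_mem_miss, hu']
  have hpt : ∀ z, (miss φ z ∩ B).card ≤ (miss φ' z ∩ insert α₀ (B.erase β)).card +
      (if z ∉ S ∧ φ.M β z = z then 1 else 0) := by
    intro z
    have k1 : (miss φ z ∩ B).card = (miss φ z ∩ B.erase β).card +
        (if φ.M β z = z then 1 else 0) := by
      by_cases hz : φ.M β z = z
      · rw [if_pos hz]
        have : miss φ z ∩ B = insert β (miss φ z ∩ B.erase β) := by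
          ext c
          simp only [Finset.mem_inter, Finset.mem_insert, Finset.mem_erase, L3_mem_miss]
          constructor
          · rintro ⟨h1, h2⟩
            by_cases hc : c = β
            · exact Or.inl hc
            · exact Or.inr ⟨h1, hc, h2⟩
          · rintro (h1 | ⟨h1, _, h2⟩)
            · subst h1
              exact ⟨hz, hβ⟩
            · exact ⟨h1, h2⟩
        rw [this, Finset.card_insert_of_notMem]
        simp
      · rw [if_neg hz, add_zero]
        congr 1
        ext c
        simp only [Finset.mem_inter, Finset.mem_erase, L3_mem_miss]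
        constructor
        · rintro ⟨h1, h2⟩
          refine ⟨h1, fun hc => hz (hc ▸ h1), h2⟩
        · rintro ⟨h1, _, h2⟩
          exact ⟨h1, h2⟩
    have k2 : miss φ' z ∩ B.erase β = miss φ z ∩ B.erase β := by
      ext c
      simp only [Finset.mem_inter, Finset.mem_erase, L3_mem_miss]
      constructor
      · rintro ⟨h1, h2, h3⟩
        have : c ≠ α₀ := fun e => hαB (e ▸ h3)
        rw [e2 c this h2] at h1
        exact ⟨h1, h2, h3⟩
      · rintro ⟨h1, h2, h3⟩
        have : c ≠ α₀ := fun e => hαB (e ▸ h3)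
        rw [← e2 c this h2] at h1
        exact ⟨h1, h2, h3⟩
    by_cases hz : z ∈ S
    · have k3 : (miss φ z ∩ B.erase β).card + (if φ.M β z = z then 1 else 0) ≤
          (miss φ' z ∩ insert α₀ (B.erase β)).card := by
        by_cases hz2 : φ.M β z = z
        · rw [if_pos hz2]
          have hmem : α₀ ∈ miss φ' z := by
            rw [L3_mem_miss, e3 z hz, hz2]
          have : insert α₀ (miss φ' z ∩ B.erase β) ⊆ miss φ' z ∩ insert α₀ (B.erase β) := by
            intro c hc
            rw [Finset.mem_insert, Finset.mem_inter] at hc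
            rw [Finset.mem_inter, Finset.mem_insert]
            rcases hc with hc | hc
            · subst hc
              exact ⟨hmem, Or.inl rfl⟩
            · exact ⟨hc.1, Or.inr hc.2⟩
          have h4 := Finset.card_le_card this
          rw [Finset.card_insert_of_notMem (by
            rw [Finset.mem_inter, Finset.mem_erase]
            exact fun h => hαB h.2.2), k2] at h4
          exact h4
        · rw [if_neg hz2, add_zero, ← k2]
          exact Finset.card_le_card
            (Finset.inter_subset_inter_left (Finset.subset_insert _ _))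
      rw [k1]
      exact k3.trans (Nat.le_add_right _ _)
    · have k4 : (if z ∉ S ∧ φ.M β z = z then 1 else 0) = (if φ.M β z = z then 1 else 0) := by
        simp [hz]
      rw [k4, k1, ← k2]
      exact Nat.add_le_add_right (Finset.card_le_card
        (Finset.inter_subset_inter_left (Finset.subset_insert _ _))) _
  have hRR : ∀ w, ∑ z ∈ RR G u v w, (if z ∉ S ∧ φ.M β z = z then 1 else 0) ≤ 3 := by
    intro w
    rw [← Finset.sum_filter, Finset.sum_const, smul_eq_mul, mul_one]
    refine L3_ends φ (v := v) (β := β) hu0 _ (fun z hz => ?_)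
    rw [Finset.mem_filter, RR, Finset.mem_filter] at hz
    refine ⟨hz.1.2.2.1, hz.2.2, ?_⟩
    have := hz.2.1
    rw [hS, Set.mem_setOf_eq, not_and_or, not_not, not_not] at this
    exact this
  unfold ff
  rw [hmu]
  calc ∑ α ∈ miss φ u, ∑ z ∈ RR G u v (φ.M α v), (miss φ z ∩ B).card
      ≤ ∑ α ∈ miss φ u, ((∑ z ∈ RR G u v (φ'.M α v),
          (miss φ' z ∩ insert α₀ (B.erase β)).card) + 3) := by
        refine Finset.sum_le_sum fun α _ => ?_
        rw [hv' α]
        calc ∑ z ∈ RR G u v (φ.M α v), (miss φ z ∩ B).card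
            ≤ ∑ z ∈ RR G u v (φ.M α v), ((miss φ' z ∩ insert α₀ (B.erase β)).card +
                (if z ∉ S ∧ φ.M β z = z then 1 else 0)) :=
              Finset.sum_le_sum fun z _ => hpt z
          _ = (∑ z ∈ RR G u v (φ.M α v), (miss φ' z ∩ insert α₀ (B.erase β)).card) +
                ∑ z ∈ RR G u v (φ.M α v), (if z ∉ S ∧ φ.M β z = z then 1 else 0) :=
              Finset.sum_add_distrib
          _ ≤ _ := Nat.add_le_add_left (hRR _) _
    _ = (∑ α ∈ miss φ u, ∑ z ∈ RR G u v (φ'.M α v),
          (miss φ' z ∩ insert α₀ (B.erase β)).card) + 3 * (miss φ u).card := by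
        rw [Finset.sum_add_distrib, Finset.sum_const, smul_eq_mul, mul_comm 3]

/-- L3: the count for any set of at most `|miss u|` colours -/
theorem ff_any {G : SimpleGraph V} [DecidableRel G.Adj] {u v : V} (hG : Bad C G)
    (hadj : G.Adj u v) (φ : Col C V) (hφ : Good φ G u v) (hv : (miss φ v).Nonempty)
    (B : Finset C) (hB : B.card ≤ (miss φ u).card) :
    ff φ G u v B + 2 * (miss φ u).card ^ 2 + (miss φ u).card ≤
      3 * Fintype.card C * (miss φ u).card +
        3 * (miss φ u).card * (B \ miss φ u).card := by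
  obtain ⟨n, hn⟩ : ∃ n, (B \ miss φ u).card = n := ⟨_, rfl⟩
  induction n generalizing φ B with
  | zero =>
    have hsub : B ⊆ miss φ u := by
      rw [← Finset.sdiff_eq_empty_iff_subset]
      exact Finset.card_eq_zero.1 hn
    have h1 := ff_self hG hadj φ hφ hv
    have h2 := L3_mono φ G u v hsub
    rw [hn]
    omega
  | succ n ih =>
    have hne : (B \ miss φ u).Nonempty := by
      rw [← Finset.card_pos]
      omega
    obtain ⟨β, hβ⟩ := hne
    rw [Finset.mem_sdiff] at hβ
    have hne2 : (miss φ u \ B).Nonempty := by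
      rw [← Finset.card_pos]
      have h1 := Finset.card_sdiff_add_card_inter (miss φ u) B
      have h2 := Finset.card_sdiff_add_card_inter B (miss φ u)
      rw [Finset.inter_comm] at h2
      omega
    obtain ⟨α₀, hα⟩ := hne2
    rw [Finset.mem_sdiff] at hα
    obtain ⟨φ', g1, g2, g3, g4⟩ := L3_step φ hφ B hα.1 hα.2 hβ.1
    have hmu : miss φ' u = miss φ u := by
      ext c
      rw [L3_mem_miss, L3_mem_miss, g2]
    have hmv : miss φ' v = miss φ v := by
      ext c
      rw [L3_mem_miss, L3_mem_miss, g3]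
    have hcard : (insert α₀ (B.erase β)).card = B.card := by
      rw [Finset.card_insert_of_notMem (fun h => hα.2 (Finset.mem_of_mem_erase h)),
        Finset.card_erase_of_mem hβ.1]
      have := Finset.card_pos.2 ⟨β, hβ.1⟩
      omega
    have hsd : (insert α₀ (B.erase β)) \ miss φ u = (B \ miss φ u).erase β := by
      ext c
      simp only [Finset.mem_sdiff, Finset.mem_insert, Finset.mem_erase]
      constructor
      · rintro ⟨h1 | h1, h2⟩
        · exact absurd (h1 ▸ hα.1) h2
        · exact ⟨h1.1, h1.2, h2⟩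
      · rintro ⟨h1, h2, h3⟩
        exact ⟨Or.inr ⟨h1, h2⟩, h3⟩
    have hsdc : ((insert α₀ (B.erase β)) \ miss φ' u).card = n := by
      rw [hmu, hsd, Finset.card_erase_of_mem (Finset.mem_sdiff.2 hβ), hn]
      rfl
    have h5 := ih φ' g1 (by rw [hmv]; exact hv) (insert α₀ (B.erase β))
      (by rw [hcard, hmu]; exact hB) hsdc
    rw [hsdc, hmu] at h5
    rw [hn]
    have e : 3 * (miss φ u).card * (n + 1) = 3 * (miss φ u).card * n + 3 * (miss φ u).card := by
      ring
    rw [e]
    omega

end VizSize
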