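import Mathlib

namespace VizSize

open Finset

/-- L4: averaging -/
theorem avg_subsets {C : Type*} [Fintype C] [DecidableEq C] (g : C → ℕ) (q X : ℕ)
    (hq : 1 ≤ q) (hqC : q ≤ Fintype.card C)
    (h : ∀ B : Finset C, B.card = q → ∑ c ∈ B, g c ≤ X) :
    q * ∑ c, g c ≤ Fintype.card C * X := by
  have hne : (powersetCard q (univ : Finset C)).Nonempty := by
    rw [powersetCard_nonempty]
    simpa using hqC
  obtain ⟨B, hB, hmax⟩ := exists_max_image (powersetCard q (univ : Finset C))
    (fun B => ∑ c ∈ B, g c) hne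
  have hBq : B.card = q := (mem_powersetCard.1 hB).2
  have hle : ∀ c, c ∉ B → ∀ b ∈ B, g c ≤ g b := by
    intro c hc b hb
    have hc' : c ∉ B.erase b := fun h' => hc (mem_of_mem_erase h')
    have h1 : insert c (B.erase b) ∈ powersetCard q (univ : Finset C) := by
      rw [mem_powersetCard]
      refine ⟨subset_univ _, ?_⟩
      rw [card_insert_of_notMem hc', card_erase_of_mem hb, hBq]
      omega
    have h2 := hmax _ h1
    rw [sum_insert hc'] at h2
    have h3 := sum_erase_add B g hb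
    omega
  have hcomp : ∀ c ∈ Bᶜ, q * g c ≤ ∑ b ∈ B, g b := by
    intro c hc
    rw [mem_compl] at hc
    calc q * g c = ∑ b ∈ B, g c := by rw [sum_const, hBq, smul_eq_mul]
      _ ≤ ∑ b ∈ B, g b := sum_le_sum (fun b hb => hle c hc b hb)
  have hcard : Bᶜ.card + q = Fintype.card C := by
    rw [card_compl, hBq]
    omega
  calc q * ∑ c, g c = q * (∑ c ∈ B, g c) + ∑ c ∈ Bᶜ, q * g c := by
        rw [← sum_add_sum_compl B g, mul_add, ← mul_sum]
    _ ≤ q * (∑ c ∈ B, g c) + ∑ c ∈ Bᶜ, ∑ b ∈ B, g b :=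
        Nat.add_le_add_left (sum_le_sum hcomp) _
    _ = (Bᶜ.card + q) * ∑ b ∈ B, g b := by
        rw [sum_const, smul_eq_mul]
        ring
    _ = Fintype.card C * ∑ b ∈ B, g b := by rw [hcard]
    _ ≤ Fintype.card C * X := Nat.mul_le_mul_left _ (h B hBq)

end VizSize
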