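import Pool.Agent.Lib.MP_389031_co.DefsB
import Pool.Agent.Lib.MP_389031_co.L1
import Pool.Agent.Lib.MP_389031_co.L3
import Pool.Agent.Lib.MP_389031_co.L4

/-! # L5: a good vertex `w` -/

set_option autoImplicit false

namespace VizSize

open Finset

variable {C V : Type*} [Fintype C] [Fintype V] [DecidableEq C] [DecidableEq V]

private theorem L5_ff_eq (φ : Col C V) (G : SimpleGraph V) [DecidableRel G.Adj] (u v : V)
    (B : Finset C) :
    ff φ G u v B = ∑ c ∈ B, ∑ α ∈ miss φ u, ∑ z ∈ RR G u v (φ.M α v),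
      (if c ∈ miss φ z then 1 else 0) := by
  unfold ff
  rw [Finset.sum_comm]
  refine Finset.sum_congr rfl fun α _ => ?_
  rw [Finset.sum_comm]
  refine Finset.sum_congr rfl fun z _ => ?_
  rw [Finset.sum_ite_mem, Finset.sum_const, smul_eq_mul, mul_one, Finset.inter_comm]

/-- L5: a good vertex `w` -/
theorem exists_good {G : SimpleGraph V} [DecidableRel G.Adj] {u v : V} (hG : Bad C G)
    (hadj : G.Adj u v) (φ : Col C V) (hφ : Good φ G u v) (hv : (miss φ v).Nonempty)
    (hu : (miss φ u).Nonempty) (m q : ℕ) (hm : Fintype.card C = m)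
    (hq : (miss φ u).card = q) :
    ∃ α ∈ miss φ u,
      q * (q * (miss φ (φ.M α v)).card + ∑ z ∈ RR G u v (φ.M α v), (miss φ z).card) +
        q * (q + 1) + m * (2 * q + 1) ≤ q * m + m * (3 * m + 3 * min q (m - q)) := by
  subst hm
  subst hq
  set m := Fintype.card C with hm
  set q := (miss φ u).card with hq
  have hq1 : 1 ≤ q := Finset.card_pos.2 hu
  have hqm : q ≤ m := Finset.card_le_univ _
  have hp1 : 1 ≤ (miss φ v).card := Finset.card_pos.2 hv
  have hfan := fan_deficit hG hadj φ hφ hv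
  -- the average
  have hX : ∀ B : Finset C, B.card = q →
      ∑ c ∈ B, (∑ α ∈ miss φ u, ∑ z ∈ RR G u v (φ.M α v),
        (if c ∈ miss φ z then 1 else 0)) ≤ q * (3 * m + 3 * min q (m - q) - (2 * q + 1)) := by
    intro B hB
    rw [← L5_ff_eq]
    have h1 := ff_any hG hadj φ hφ hv B (le_of_eq hB)
    rw [← hm, ← hq] at h1
    have h2 : (B \ miss φ u).card ≤ min q (m - q) := by
      refine le_min ?_ ?_
      · rw [← hB]
        exact Finset.card_le_card Finset.sdiff_subset
      · have h3 : (B \ miss φ u).card ≤ ((miss φ u)ᶜ).card := by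
          refine Finset.card_le_card ?_
          intro c hc
          rw [Finset.mem_compl]
          exact (Finset.mem_sdiff.1 hc).2
        rw [Finset.card_compl] at h3
        exact h3
    have h4 : 3 * q * (B \ miss φ u).card ≤ 3 * q * min q (m - q) :=
      Nat.mul_le_mul_left _ h2
    have h5 : q * (3 * m + 3 * min q (m - q) - (2 * q + 1)) + q * (2 * q + 1) =
        q * (3 * m + 3 * min q (m - q)) := by
      rw [← mul_add]
      congr 1
      omega
    generalize hY : q * (3 * m + 3 * min q (m - q) - (2 * q + 1)) = Y at h5 ⊢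
    nlinarith
  have havg := avg_subsets (fun c => ∑ α ∈ miss φ u, ∑ z ∈ RR G u v (φ.M α v),
        (if c ∈ miss φ z then 1 else 0)) q (q * (3 * m + 3 * min q (m - q) - (2 * q + 1)))
        hq1 hqm hX
  have hsum : ∑ c, (∑ α ∈ miss φ u, ∑ z ∈ RR G u v (φ.M α v),
        (if c ∈ miss φ z then 1 else 0)) =
      ∑ α ∈ miss φ u, ∑ z ∈ RR G u v (φ.M α v), (miss φ z).card := by
    rw [← L5_ff_eq]
    unfold ff
    simp only [Finset.inter_univ]
  rw [hsum, ← hm] at havg
  set S := ∑ α ∈ miss φ u, ∑ z ∈ RR G u v (φ.M α v), (miss φ z).card with hS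
  set T := ∑ α ∈ miss φ u, (miss φ (φ.M α v)).card with hT
  have hS' : S + m * (2 * q + 1) ≤ m * (3 * m + 3 * min q (m - q)) := by
    have h1 : S ≤ m * (3 * m + 3 * min q (m - q) - (2 * q + 1)) := by
      refine Nat.le_of_mul_le_mul_left (c := q) ?_ hq1
      calc q * S ≤ m * (q * (3 * m + 3 * min q (m - q) - (2 * q + 1))) := havg
        _ = q * (m * (3 * m + 3 * min q (m - q) - (2 * q + 1))) := by ring
    have h2 : m * (3 * m + 3 * min q (m - q) - (2 * q + 1)) + m * (2 * q + 1) =
        m * (3 * m + 3 * min q (m - q)) := by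
      rw [← mul_add]
      congr 1
      omega
    omega
  by_contra hcon
  push Not at hcon
  have hlt := Finset.sum_lt_sum_of_nonempty hu hcon
  rw [Finset.sum_const, smul_eq_mul, ← hq] at hlt
  simp only [Finset.sum_add_distrib, Finset.sum_const, smul_eq_mul, ← Finset.mul_sum,
    ← hq, ← hS, ← hT] at hlt
  generalize min q (m - q) = k at hlt hS'
  have hT' : T + q + 1 ≤ m := by
    rw [← hm, ← hq] at hfan
    omega
  have e1 := Nat.mul_le_mul_left q (Nat.mul_le_mul_left q hT')
  have e2 := Nat.mul_le_mul_left q hS'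
  have e3 : q * (q * m + m * (3 * m + 3 * k)) < q * (q * m + m * (3 * m + 3 * k)) := by
    calc q * (q * m + m * (3 * m + 3 * k))
        < q * (q * T + S) + q * (q * (q + 1)) + q * (m * (2 * q + 1)) := hlt
      _ = q * (q * (T + q + 1)) + q * (S + m * (2 * q + 1)) := by ring
      _ ≤ q * (q * m) + q * (m * (3 * m + 3 * k)) := Nat.add_le_add e1 e2
      _ = q * (q * m + m * (3 * m + 3 * k)) := by ring
  exact lt_irrefl _ e3
end VizSize
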