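import Pool.Agent.Lib.MP_389031_co.Defs

/-! # K11, K12: counting colours and edges -/

namespace VizSize

open Finset

variable {C V : Type*}

variable [Fintype C] [Fintype V] [DecidableEq C] [DecidableEq V]

theorem k11_card_pres {G : SimpleGraph V} [DecidableRel G.Adj] {u v : V}
    (φ : Col C V) (hφ : Good φ G u v) (x : V) :
    (univ.filter (fun c => φ.M c x ≠ x)).card =
      (univ.filter (fun y => G.Adj x y ∧ s(x, y) ≠ s(u, v))).card := by
  refine card_bij (fun c _ => φ.M c x) ?_ ?_ ?_
  · intro c hc
    rw [mem_filter] at hc ⊢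
    exact ⟨mem_univ _, (hφ x (φ.M c x)).1 ⟨fun e => hc.2 e.symm, c, rfl⟩⟩
  · intro c hc d hd e
    rw [mem_filter] at hc
    by_contra hne
    exact hc.2 (φ.prop c d x hne e)
  · intro y hy
    rw [mem_filter] at hy
    obtain ⟨hxy, c, hc⟩ := (hφ x y).2 hy.2
    refine ⟨c, ?_, hc⟩
    rw [mem_filter]
    exact ⟨mem_univ _, fun e => hxy (by rw [← hc, e])⟩

theorem k11_card_nbr {G : SimpleGraph V} [DecidableRel G.Adj] {u v : V} (hadj : G.Adj u v)
    (x : V) : (univ.filter (fun y => G.Adj x y ∧ s(x, y) ≠ s(u, v))).card +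
      (if x = u ∨ x = v then 1 else 0) = G.degree x := by
  have huv : u ≠ v := hadj.ne
  rw [← G.card_neighborFinset_eq_degree]
  by_cases hx : x = u ∨ x = v
  · rw [if_pos hx]
    obtain ⟨w, hw, he⟩ : ∃ w, G.Adj x w ∧ ∀ y, s(x, y) = s(u, v) ↔ y = w := by
      rcases hx with rfl | rfl
      · refine ⟨v, hadj, fun y => ?_⟩
        rw [Sym2.eq_iff]
        constructor
        · rintro (⟨-, h⟩ | ⟨h, h'⟩)
          · exact h
          · rw [h', h]
        · intro h
          exact Or.inl ⟨rfl, h⟩
      · refine ⟨u, hadj.symm, fun y => ?_⟩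
        rw [Sym2.eq_iff]
        constructor
        · rintro (⟨h, h'⟩ | ⟨-, h⟩)
          · rw [h', h]
          · exact h
        · intro h
          exact Or.inr ⟨rfl, h⟩
    have : univ.filter (fun y => G.Adj x y ∧ s(x, y) ≠ s(u, v)) = (G.neighborFinset x).erase w := by
      ext y
      rw [mem_filter, mem_erase, SimpleGraph.mem_neighborFinset, Ne, he]
      simp only [mem_univ, true_and]
      tauto
    rw [this, card_erase_add_one (by rw [SimpleGraph.mem_neighborFinset]; exact hw)]
  · rw [if_neg hx, add_zero]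
    congr 1
    ext y
    rw [mem_filter, SimpleGraph.mem_neighborFinset]
    simp only [mem_univ, true_and]
    constructor
    · exact fun h => h.1
    · intro h
      refine ⟨h, fun e => hx ?_⟩
      rw [Sym2.eq_iff] at e
      rcases e with ⟨h1, -⟩ | ⟨h1, -⟩
      · exact Or.inl h1
      · exact Or.inr h1

/-- K11 total coverage -/
theorem sum_cov {G : SimpleGraph V} [DecidableRel G.Adj] {u v : V} (hadj : G.Adj u v)
    (φ : Col C V) (hφ : Good φ G u v) :
    (∑ c, cov φ c) + 2 = 2 * G.edgeFinset.card := by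
  have h1 : ∑ c, cov φ c = ∑ x, (univ.filter (fun c => φ.M c x ≠ x)).card := by
    unfold cov
    simp only [card_filter]
    exact sum_comm
  have h2 : ∑ x : V, (if x = u ∨ x = v then 1 else 0) = 2 := by
    rw [← card_filter]
    have : univ.filter (fun x => x = u ∨ x = v) = {u, v} := by
      ext x
      simp
    rw [this, card_pair hadj.ne]
  rw [← G.sum_degrees_eq_twice_card_edges, h1, ← h2, ← sum_add_distrib]
  refine sum_congr rfl (fun x _ => ?_)
  rw [k11_card_pres φ hφ, k11_card_nbr hadj]

/-- K12 number of missing colours -/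
theorem card_miss {G : SimpleGraph V} [DecidableRel G.Adj] {u v : V} (hadj : G.Adj u v)
    (φ : Col C V) (hφ : Good φ G u v) :
    (miss φ u).card + G.degree u = Fintype.card C + 1 := by
  have h1 := k11_card_nbr hadj u
  rw [if_pos (Or.inl rfl), ← k11_card_pres φ hφ] at h1
  have h2 : (miss φ u).card + (univ.filter (fun c => φ.M c u ≠ u)).card = Fintype.card C := by
    unfold miss
    rw [card_filter_add_card_filter_not, card_univ]
  omega

end VizSize
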