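import Pool.Agent.Lib.MP_389031_co.DefsB
import Pool.Agent.Lib.MP_389031_co.K4
import Pool.Agent.Lib.MP_389031_co.K11

/-! # L6: the number of edges from a good vertex -/

namespace VizSize

open Finset

variable {C V : Type*} [Fintype C] [Fintype V] [DecidableEq C] [DecidableEq V]

omit [DecidableEq C] in
/-- a vertex not on the uncoloured edge -/
theorem l6_degree_eq {G : SimpleGraph V} [DecidableRel G.Adj] {u v : V} (hadj : G.Adj u v)
    (φ : Col C V) (hφ : Good φ G u v) {z : V} (hzu : z ≠ u) (hzv : z ≠ v) :
    (miss φ z).card + G.degree z = Fintype.card C := by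
  classical
  have h1 := k11_card_nbr hadj z
  rw [if_neg (by rintro (h | h); exacts [hzu h, hzv h]), ← k11_card_pres φ hφ] at h1
  have h2 : (miss φ z).card + (univ.filter (fun c => φ.M c z ≠ z)).card = Fintype.card C := by
    unfold miss
    rw [card_filter_add_card_filter_not, card_univ]
  omega

/-- L6: the number of edges from a good vertex -/
theorem edge_count {G : SimpleGraph V} [DecidableRel G.Adj] {u v : V} (hG : Bad C G)
    (hadj : G.Adj u v) (φ : Col C V) (hφ : Good φ G u v) (hv : (miss φ v).Nonempty)
    {α : C} (hα : α ∈ miss φ u) (m δ : ℕ) (hm : Fintype.card C = m) (hδ : 1 ≤ δ)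
    (hδm : δ ≤ m) (hdeg : ∀ x, δ ≤ G.degree x) (hn : m + 1 ≤ Fintype.card V) :
    m * m + G.degree v + Fintype.card V * δ ≤
      2 * G.edgeFinset.card + m + m * δ + (m + 1 - δ) * (miss φ (φ.M α v)).card +
        ∑ z ∈ RR G u v (φ.M α v), (miss φ z).card := by
  have hαu : φ.M α u = u := by
    unfold miss at hα
    exact (mem_filter.1 hα).2
  have hwv : φ.M α v ≠ v := no_common hG hadj φ hφ hαu
  have hwu : φ.M α v ≠ u := by
    intro h
    have h1 : φ.M α u = v := by rw [← h, φ.inv]
    rw [hαu] at h1
    exact hadj.ne h1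
  have hvw : G.Adj v (φ.M α v) := ((hφ v (φ.M α v)).1 ⟨hwv.symm, α, rfl⟩).1
  generalize φ.M α v = w at *
  have hw := l6_degree_eq hadj φ hφ hwu hwv
  rw [hm] at hw
  -- the set `R`
  have hR : ∀ z ∈ RR G u v w, (miss φ z).card + G.degree z = m := by
    intro z hz
    unfold RR at hz
    rw [mem_filter] at hz
    rw [← hm]
    exact l6_degree_eq hadj φ hφ hz.2.2.1 hz.2.2.2
  have hRsum : ∑ z ∈ RR G u v w, (miss φ z).card + ∑ z ∈ RR G u v w, G.degree z
      = (RR G u v w).card * m := by
    rw [← sum_add_distrib, sum_congr rfl hR, sum_const, smul_eq_mul]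
  have hvR : v ∉ RR G u v w := by
    unfold RR
    rw [mem_filter]
    rintro ⟨-, -, -, h⟩
    exact h rfl
  have hwR : w ∉ insert v (RR G u v w) := by
    rw [mem_insert]
    rintro (h | h)
    · exact hwv h
    · unfold RR at h
      rw [mem_filter] at h
      exact G.loopless.irrefl w h.2.1
  have hcardR : G.degree w ≤ (RR G u v w).card + 2 := by
    rw [← G.card_neighborFinset_eq_degree]
    have hsub : G.neighborFinset w ⊆ RR G u v w ∪ {u, v} := by
      intro z hz
      rw [SimpleGraph.mem_neighborFinset] at hz
      rw [mem_union]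
      by_cases h : z = u ∨ z = v
      · right
        simpa using h
      · left
        unfold RR
        rw [mem_filter]
        push Not at h
        exact ⟨mem_univ _, hz, h.1, h.2⟩
    calc (G.neighborFinset w).card ≤ (RR G u v w ∪ {u, v}).card := card_le_card hsub
      _ ≤ (RR G u v w).card + ({u, v} : Finset V).card := card_union_le _ _
      _ = (RR G u v w).card + 2 := by rw [card_pair hadj.ne]
  have hcS : (insert w (insert v (RR G u v w))).card = (RR G u v w).card + 2 := by
    rw [card_insert_of_notMem hwR, card_insert_of_notMem hvR]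
  have hcSc : (insert w (insert v (RR G u v w))).card +
      (insert w (insert v (RR G u v w)))ᶜ.card = Fintype.card V := card_add_card_compl _
  have hsum : ∑ x ∈ insert w (insert v (RR G u v w)), G.degree x +
      ∑ x ∈ (insert w (insert v (RR G u v w)))ᶜ, G.degree x = 2 * G.edgeFinset.card := by
    rw [sum_add_sum_compl, G.sum_degrees_eq_twice_card_edges]
  rw [sum_insert hwR, sum_insert hvR] at hsum
  have hrest : (insert w (insert v (RR G u v w)))ᶜ.card * δ ≤
      ∑ x ∈ (insert w (insert v (RR G u v w)))ᶜ, G.degree x := by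
    rw [← smul_eq_mul, ← sum_const]
    exact sum_le_sum fun x _ => hdeg x
  rw [hcS] at hcSc
  generalize (insert w (insert v (RR G u v w)))ᶜ.card = k at *
  generalize ∑ x ∈ (insert w (insert v (RR G u v w)))ᶜ, G.degree x = D at *
  generalize ∑ z ∈ RR G u v w, (miss φ z).card = S1 at *
  generalize ∑ z ∈ RR G u v w, G.degree z = S2 at *
  generalize (RR G u v w).card = r at *
  generalize (miss φ w).card = p at *
  generalize G.degree w = dw at *
  generalize G.degree v = dv at *
  generalize G.edgeFinset.card = E at *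
  generalize Fintype.card V = n at *
  obtain ⟨e, rfl⟩ := Nat.exists_eq_add_of_le hδm
  have e1 : δ + e + 1 - δ = e + 1 := by omega
  rw [e1]
  zify at *
  nlinarith [mul_nonneg (sub_nonneg.2 hcardR) (Int.natCast_nonneg e)]

end VizSize
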