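import Pool.Agent.Lib.MP_389031_co.DefsB
import Pool.Agent.Lib.MP_389031_co.K4
import Pool.Agent.Lib.MP_389031_co.K11
import Pool.Agent.Lib.MP_389031_co.L1

/-! # L7: the neighbour of `u` of largest degree -/

namespace VizSize

open Finset

variable {C V : Type*} [Fintype C] [Fintype V] [DecidableEq C] [DecidableEq V]

omit [Fintype C] [Fintype V] [DecidableEq C] [DecidableEq V] in
theorem l7_symm {G : SimpleGraph V} {u v : V} {φ : Col C V} (hφ : Good φ G u v) :
    Good φ G v u := by
  intro x y
  rw [hφ x y, Sym2.eq_swap (a := v) (b := u)]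

theorem l7_card {G : SimpleGraph V} [DecidableRel G.Adj] {u v : V} (hadj : G.Adj u v)
    (φ : Col C V) (hφ : Good φ G u v) {x : V} (hxu : x ≠ u) (hxv : x ≠ v) :
    (miss φ x).card + G.degree x = Fintype.card C := by
  have h1 := k11_card_nbr hadj x
  rw [if_neg (by rintro (h | h); exacts [hxu h, hxv h]), ← k11_card_pres φ hφ] at h1
  have h2 : (miss φ x).card + (univ.filter (fun c => φ.M c x ≠ x)).card = Fintype.card C := by
    unfold miss
    rw [card_filter_add_card_filter_not, card_univ]
  omega

/-- L7: the neighbour of `u` of largest degree -/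
theorem nbr_max {G : SimpleGraph V} [DecidableRel G.Adj] {u v : V} (hG : Bad C G)
    (hadj : G.Adj u v) (φ : Col C V) (hφ : Good φ G u v) (hv : (miss φ v).Nonempty)
    (hu : (miss φ u).Nonempty) (hmax : ∀ x, G.Adj u x → G.degree x ≤ G.degree v) :
    (miss φ v).card ^ 2 + (miss φ u).card ≤ Fintype.card C := by
  have h1 := fan_deficit hG hadj.symm φ (l7_symm hφ) hu
  have h2 := card_miss hadj.symm φ (l7_symm hφ)
  have h3 : ∀ α ∈ miss φ v, (miss φ v).card ≤ (miss φ (φ.M α u)).card + 1 := by
    intro α hα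
    have hαv : φ.M α v = v := by
      unfold miss at hα
      exact (mem_filter.1 hα).2
    have hxu : φ.M α u ≠ u := fun h => no_common hG hadj φ hφ h hαv
    obtain ⟨hx, hs⟩ := (hφ u (φ.M α u)).1 ⟨fun h => hxu h.symm, α, rfl⟩
    have hxv : φ.M α u ≠ v := by
      intro h
      rw [h] at hs
      exact hs rfl
    have h4 := l7_card hadj φ hφ hxu hxv
    have h5 := hmax _ hx
    omega
  have h4 : (miss φ v).card * (miss φ v).card ≤
      (∑ α ∈ miss φ v, (miss φ (φ.M α u)).card) + (miss φ v).card := by
    calc (miss φ v).card * (miss φ v).card = ∑ _α ∈ miss φ v, (miss φ v).card := by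
          rw [sum_const, smul_eq_mul]
      _ ≤ ∑ α ∈ miss φ v, ((miss φ (φ.M α u)).card + 1) := sum_le_sum h3
      _ = _ := by rw [sum_add_distrib, card_eq_sum_ones]
  rw [sq]
  omega

end VizSize
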