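import Pool.Agent.Lib.MP_389031_co.DefsB
import Pool.Agent.Lib.MP_389031_co.K4
import Pool.Agent.Lib.MP_389031_co.K11
import Pool.Agent.Lib.MP_389031_co.L1

/-! # L8: two counts of the edges from the fan -/

namespace VizSize

open Finset

variable {C V : Type*} [Fintype C] [Fintype V] [DecidableEq C] [DecidableEq V]

theorem l8_deg {G : SimpleGraph V} [DecidableRel G.Adj] {u v : V} (hadj : G.Adj u v)
    (φ : Col C V) (hφ : Good φ G u v) {x : V} (hxu : x ≠ u) (hxv : x ≠ v) :
    (miss φ x).card + G.degree x = Fintype.card C := by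
  have h1 := k11_card_nbr hadj x
  rw [if_neg (by tauto), ← k11_card_pres φ hφ, add_zero] at h1
  have h2 : (miss φ x).card + (univ.filter (fun c => φ.M c x ≠ x)).card = Fintype.card C := by
    unfold miss
    rw [card_filter_add_card_filter_not, card_univ]
  omega

/-- the fan at `v`: the neighbours of `v` along the colours missing at `u` -/
theorem l8_fan {G : SimpleGraph V} [DecidableRel G.Adj] {u v : V} (hG : Bad C G)
    (hadj : G.Adj u v) (φ : Col C V) (hφ : Good φ G u v) (hv : (miss φ v).Nonempty) :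
    ∃ F : Finset V, F.card = (miss φ u).card ∧
      (miss φ u).card * Fintype.card C + (miss φ u).card + 1 ≤
        ∑ w ∈ F, G.degree w + Fintype.card C := by
  have mu : ∀ c ∈ miss φ u, φ.M c u = u := by
    intro c hc
    simpa [miss] using hc
  have huv : u ≠ v := hadj.ne
  have wv : ∀ α ∈ miss φ u, φ.M α v ≠ v := fun α hα => no_common hG hadj φ hφ (mu α hα)
  have wu : ∀ α ∈ miss φ u, φ.M α v ≠ u := by
    intro α hα h
    have h1 : φ.M α (φ.M α v) = v := φ.inv α v
    rw [h, mu α hα] at h1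
    exact huv h1
  have winj : Set.InjOn (fun α => φ.M α v) (miss φ u) := by
    intro α hα α' hα' h
    by_contra hne
    exact wv α hα (φ.prop α α' v hne h)
  refine ⟨(miss φ u).image (fun α => φ.M α v), card_image_of_injOn winj, ?_⟩
  rw [sum_image winj]
  have h1 := fan_deficit hG hadj φ hφ hv
  have h2 : ∑ α ∈ miss φ u, ((miss φ (φ.M α v)).card + G.degree (φ.M α v)) =
      (miss φ u).card * Fintype.card C := by
    rw [sum_congr rfl fun α hα => l8_deg hadj φ hφ (wu α hα) (wv α hα), sum_const, smul_eq_mul]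
  rw [sum_add_distrib] at h2
  have h3 : 1 ≤ (miss φ v).card := card_pos.2 hv
  omega

/-- L8a -/
theorem count_a {G : SimpleGraph V} [DecidableRel G.Adj] {u v : V} (hG : Bad C G)
    (hadj : G.Adj u v) (φ : Col C V) (hφ : Good φ G u v) (hv : (miss φ v).Nonempty)
    (m q : ℕ) (hm : Fintype.card C = m) (hq : (miss φ u).card = q) :
    2 * q * m + 3 * q + 2 ≤ 2 * G.edgeFinset.card + 2 * m + q ^ 2 := by
  obtain ⟨F, hF, h1⟩ := l8_fan hG hadj φ hφ hv
  rw [hq] at hF h1
  rw [hm] at h1
  have h2 : ∑ w ∈ F, G.degree w + ∑ w ∈ Fᶜ, G.degree w = 2 * G.edgeFinset.card := by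
    rw [← G.sum_degrees_eq_twice_card_edges, sum_add_sum_compl]
  have h3 : ∀ w ∈ F, G.degree w + 1 ≤ (Fᶜ.filter (fun x => G.Adj w x)).card + q := by
    intro w hw
    have h4 : G.neighborFinset w ⊆ (Fᶜ.filter (fun x => G.Adj w x)) ∪ F.erase w := by
      intro x hx
      rw [SimpleGraph.mem_neighborFinset] at hx
      rw [mem_union, mem_filter, mem_compl, mem_erase]
      by_cases hxF : x ∈ F
      · exact Or.inr ⟨hx.ne.symm, hxF⟩
      · exact Or.inl ⟨hxF, hx⟩
    have h5 := (card_le_card h4).trans (card_union_le _ _)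
    rw [SimpleGraph.card_neighborFinset_eq_degree] at h5
    have h6 := card_erase_add_one hw
    omega
  have h4 := sum_le_sum h3
  rw [sum_add_distrib, sum_add_distrib, sum_const, sum_const, smul_eq_mul, smul_eq_mul,
    hF, mul_one] at h4
  have h5 : ∑ w ∈ F, (Fᶜ.filter (fun x => G.Adj w x)).card ≤ ∑ x ∈ Fᶜ, G.degree x := by
    simp only [card_filter]
    rw [sum_comm]
    refine sum_le_sum fun x _ => ?_
    rw [← card_filter, ← SimpleGraph.card_neighborFinset_eq_degree]
    refine card_le_card ?_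
    intro w hw
    rw [mem_filter] at hw
    rw [SimpleGraph.mem_neighborFinset]
    exact hw.2.symm
  nlinarith [h1, h2, h4, h5]

/-- L8c -/
theorem count_c {G : SimpleGraph V} [DecidableRel G.Adj] {u v : V} (hG : Bad C G)
    (hadj : G.Adj u v) (φ : Col C V) (hφ : Good φ G u v) (hv : (miss φ v).Nonempty)
    (m q δ : ℕ) (hm : Fintype.card C = m) (hq : (miss φ u).card = q) (hqδ : q + δ = m + 1)
    (hdeg : ∀ x, δ ≤ G.degree x) :
    Fintype.card V * δ + q ^ 2 + 1 ≤ 2 * G.edgeFinset.card + m := by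
  obtain ⟨F, hF, h1⟩ := l8_fan hG hadj φ hφ hv
  rw [hq] at hF h1
  rw [hm] at h1
  have h2 : ∑ w ∈ F, G.degree w + ∑ w ∈ Fᶜ, G.degree w = 2 * G.edgeFinset.card := by
    rw [← G.sum_degrees_eq_twice_card_edges, sum_add_sum_compl]
  have h3 : (Fᶜ).card * δ ≤ ∑ w ∈ Fᶜ, G.degree w := by
    rw [← smul_eq_mul, ← sum_const]
    exact sum_le_sum fun x _ => hdeg x
  have h4 : F.card + (Fᶜ).card = Fintype.card V := by
    rw [add_comm]
    exact card_compl_add_card F
  rw [hF] at h4
  rw [← h4]
  nlinarith [h1, h2, h3, hqδ]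

end VizSize
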