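import Pool.Agent.Lib.MP_389031_co.K11
import Pool.Agent.Lib.MP_389031_co.K13
import Pool.Agent.Lib.MP_389031_co.L5
import Pool.Agent.Lib.MP_389031_co.L6
import Pool.Agent.Lib.MP_389031_co.L7
import Pool.Agent.Lib.MP_389031_co.L8

namespace VizSize

open Finset

variable {V : Type} [Fintype V] [DecidableEq V]

/-- `G` is critical of degree `m` (edge-chromatic critical): `G` is connected, has maximum
degree `m` and chromatic index `m + 1`, and the deletion of any edge lowers the chromatic index
to `m`. The chromatic index of a graph is the chromatic number of its line graph. -/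
structure Critical (G : SimpleGraph V) [DecidableRel G.Adj] (m : ℕ) : Prop where
  conn : G.Connected
  maxdeg : G.maxDegree = m
  class2 : G.lineGraph.chromaticNumber = ((m + 1 : ℕ) : ℕ∞)
  crit : ∀ e ∈ G.edgeSet, (G.deleteEdges {e}).lineGraph.chromaticNumber = ((m : ℕ) : ℕ∞)

omit [Fintype V] [DecidableEq V] in
theorem Good.symm' {C : Type*} {G : SimpleGraph V} {u v : V} {φ : Col C V}
    (h : Good φ G u v) : Good φ G v u := by
  intro x y
  rw [h x y, Sym2.eq_swap (a := u) (b := v)]

/-- the inequalities satisfied by a critical graph: `δ` is the minimum degree, `q = m + 1 - δ`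
and `m + 1 - p` is the largest degree of a neighbour of a vertex of minimum degree -/
theorem ingredients (G : SimpleGraph V) [DecidableRel G.Adj] (m : ℕ) (hm : 2 ≤ m)
    (h : Critical G m) :
    m + 1 ≤ Fintype.card V ∧ ∃ q p δ : ℕ, q + δ = m + 1 ∧ 1 ≤ q ∧ 1 ≤ δ ∧ 1 ≤ p ∧
      p ^ 2 + q ≤ m ∧
      2 * q * m + 3 * q + 2 ≤ 2 * G.edgeFinset.card + 2 * m + q ^ 2 ∧
      Fintype.card V * δ + q ^ 2 + 1 ≤ 2 * G.edgeFinset.card + m ∧
      q * (m * m + (m + 1 - p) + Fintype.card V * δ) + q * (q + 1) + m * (2 * q + 1) ≤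
        q * (2 * G.edgeFinset.card + m + m * δ) + q * m +
          m * (3 * m + 3 * min q (m - q)) := by
  have hne : Nonempty V := h.conn.nonempty
  have hn1 : m + 1 ≤ Fintype.card V := by
    have := G.maxDegree_lt_card_verts
    rw [h.maxdeg] at this
    omega
  have hnt : Nontrivial V := by
    rw [← Fintype.one_lt_card_iff_nontrivial]; omega
  obtain ⟨u, hu⟩ := G.exists_minimal_degree_vertex
  have hupos : 0 < G.degree u := h.conn.preconnected.degree_pos_of_nontrivial u
  have hupos' : (G.neighborFinset u).Nonempty := by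
    rw [← Finset.card_pos, G.card_neighborFinset_eq_degree]; exact hupos
  obtain ⟨v, hvn, hvmax⟩ := (G.neighborFinset u).exists_max_image (fun x => G.degree x) hupos'
  have hadj : G.Adj u v := by simpa using hvn
  have hmax : ∀ x, G.Adj u x → G.degree x ≤ G.degree v := fun x hx => hvmax x (by simpa using hx)
  have hmd : G.minDegree ≤ m := by
    rw [hu, ← h.maxdeg]; exact G.degree_le_maxDegree u
  have hvd : G.degree v ≤ m := by
    rw [← h.maxdeg]; exact G.degree_le_maxDegree v
  have hbad : Bad (Fin m) G := by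
    intro φ hφ
    have hc : G.lineGraph.Colorable m := (colorable_iff G m).2 ⟨φ, hφ⟩
    have := SimpleGraph.chromaticNumber_le_iff_colorable.2 hc
    rw [h.class2] at this
    have h2 : m + 1 ≤ m := by exact_mod_cast this
    omega
  obtain ⟨φ, hφ⟩ : ∃ φ : Col (Fin m) V, Good φ G u v := by
    have hc : (G.deleteEdges {s(u, v)}).lineGraph.Colorable m := by
      apply SimpleGraph.chromaticNumber_le_iff_colorable.1
      rw [h.crit s(u, v) hadj]
    obtain ⟨φ, hφ⟩ := (colorable_iff _ m).1 hc
    refine ⟨φ, fun x y => ?_⟩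
    rw [hφ x y, SimpleGraph.deleteEdges_adj]
    simp
  have hcu := card_miss hadj φ hφ
  have hcv := card_miss hadj.symm φ hφ.symm'
  rw [Fintype.card_fin] at hcu hcv
  set δ := G.minDegree with hδdef
  set q := (miss φ u).card with hq
  set p := (miss φ v).card with hp
  have hqδ : q + δ = m + 1 := by rw [hu]; exact hcu
  have hp1 : 1 ≤ p := by omega
  have hq1 : 1 ≤ q := by omega
  have hδ1 : 1 ≤ δ := by rw [hu]; exact hupos
  have hvne : (miss φ v).Nonempty := Finset.card_pos.1 (by omega)
  have hune : (miss φ u).Nonempty := Finset.card_pos.1 (by omega)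
  have hdeg : ∀ x, δ ≤ G.degree x := fun x => G.minDegree_le_degree x
  have h7 := nbr_max hbad hadj φ hφ hvne hune hmax
  rw [Fintype.card_fin] at h7
  have ha := count_a hbad hadj φ hφ hvne m q (Fintype.card_fin m) hq.symm
  have hc := count_c hbad hadj φ hφ hvne m q δ (Fintype.card_fin m) hq.symm hqδ hdeg
  obtain ⟨α, hα, h5⟩ := exists_good hbad hadj φ hφ hvne hune m q (Fintype.card_fin m) hq.symm
  have h6 := edge_count hbad hadj φ hφ hvne hα m δ (Fintype.card_fin m) hδ1 hmd hdeg hn1
  have hmq : m + 1 - δ = q := by omega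
  rw [hmq] at h6
  refine ⟨hn1, q, p, δ, hqδ, hq1, hδ1, hp1, h7, ha, hc, ?_⟩
  have hdv : G.degree v = m + 1 - p := by omega
  rw [hdv] at h6
  have h6' := Nat.mul_le_mul_left q h6
  nlinarith [h5, h6']

end VizSize
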