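import Mathlib

/-! # Partial proper edge colourings as families of involutions (Kempe calculus)

`Col C V` : one involution `M c` of the vertex set per colour `c`; `M c x = x` means that the
colour `c` is missing at `x`, otherwise `M c x` is the other end of the edge of colour `c` at `x`. -/

namespace VizSize

structure Col (C V : Type*) where
  M : C → V → V
  inv : ∀ c x, M c (M c x) = x
  prop : ∀ c d x, c ≠ d → M c x = M d x → M c x = x

/-- `φ` is a proper edge colouring of `G - uv` (all edges of `G` except `uv` are coloured). -/
def Good {C V : Type*} (φ : Col C V) (G : SimpleGraph V) (u v : V) : Prop :=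
  ∀ x y, (x ≠ y ∧ ∃ c, φ.M c x = y) ↔ (G.Adj x y ∧ s(x, y) ≠ s(u, v))

/-- `φ` is a proper edge colouring of `G`. -/
def Full {C V : Type*} (φ : Col C V) (G : SimpleGraph V) : Prop :=
  ∀ x y, (x ≠ y ∧ ∃ c, φ.M c x = y) ↔ G.Adj x y

/-- `G` has no proper edge colouring with colour set `C`. -/
def Bad (C : Type*) {V : Type*} (G : SimpleGraph V) : Prop :=
  ∀ φ : Col C V, ¬ Full φ G

/-- the Kempe component relation of two involutions -/
def Reach {V : Type*} (a b : V → V) : V → V → Prop :=
  Relation.ReflTransGen (fun y z => z = a y ∨ z = b y)

/-- number of vertices covered by the colour `c` -/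
def cov {C V : Type*} [Fintype V] [DecidableEq V] (φ : Col C V) (c : C) : ℕ :=
  (Finset.univ.filter (fun x => φ.M c x ≠ x)).card

/-- the set of colours missing at `x` -/
def miss {C V : Type*} [Fintype C] [DecidableEq V] (φ : Col C V) (x : V) : Finset C :=
  Finset.univ.filter (fun c => φ.M c x = x)

end VizSize
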