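import Pool.Agent.Lib.MP_389031_co.Defs

namespace VizSize

variable {C V : Type*} [Fintype C] [Fintype V] [DecidableEq C] [DecidableEq V]

/-- the neighbours of `w` other than `u`, `v` -/
def RR (G : SimpleGraph V) [DecidableRel G.Adj] (u v w : V) : Finset V :=
  Finset.univ.filter (fun z => G.Adj w z ∧ z ≠ u ∧ z ≠ v)

/-- number of triples: a colour `α` missing at `u`, a neighbour `z` (not `u`, `v`) of the
`α`-neighbour of `v`, a colour of `B` missing at `z` -/
def ff (φ : Col C V) (G : SimpleGraph V) [DecidableRel G.Adj] (u v : V) (B : Finset C) : ℕ :=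
  ∑ α ∈ miss φ u, ∑ z ∈ RR G u v (φ.M α v), (miss φ z ∩ B).card

end VizSize
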