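import Pool.Agent.Lib.MP_389031_co.Defs
import Pool.Agent.Lib.MP_389031_co.K1
import Pool.Agent.Lib.MP_389031_co.K2

/-! # K10: the extremal choice -/

namespace VizSize

open Finset

variable {C V : Type*}

variable [Fintype C] [Fintype V] [DecidableEq C] [DecidableEq V]

/-- K10a: exchange of one colour at `u`. -/
theorem exchange {G : SimpleGraph V} {u v : V} (φ : Col C V) (hφ : Good φ G u v) {α β : C}
    (hα : φ.M α u = u) (hβ : φ.M β u ≠ u) :
    ∃ φ' : Col C V, Good φ' G u v ∧ miss φ' u = insert β ((miss φ u).erase α) ∧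
      cov φ' β ≤ cov φ β ∧ ∀ c, c ≠ α → c ≠ β → cov φ' c = cov φ c := by
  classical
  have hαβ : α ≠ β := by
    rintro rfl
    exact hβ hα
  set S : Finset V := univ.filter (fun x => Reach (φ.M α) (φ.M β) u x) with hS
  have hmem : ∀ x, x ∈ S ↔ Reach (φ.M α) (φ.M β) u x := fun x => by simp [hS]
  have hu : u ∈ S := (hmem u).2 Relation.ReflTransGen.refl
  have hcα : ∀ x ∈ (S : Set V), φ.M α x ∈ (S : Set V) := fun x hx =>
    (hmem _).2 (((hmem x).1 hx).tail (Or.inl rfl))
  have hcβ : ∀ x ∈ (S : Set V), φ.M β x ∈ (S : Set V) := fun x hx =>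
    (hmem _).2 (((hmem x).1 hx).tail (Or.inr rfl))
  obtain ⟨φ', h1, h2, h3, h4, h5⟩ := exists_swap φ hαβ (S : Set V) hcα hcβ
  refine ⟨φ', ?_, ?_, ?_, ?_⟩
  · intro x y
    rw [← hφ x y, h5]
  · ext c
    simp only [miss, mem_filter, mem_univ, true_and, mem_insert, mem_erase]
    by_cases hcα' : c = α
    · subst hcα'
      rw [h3 u hu]
      constructor
      · intro h
        exact absurd h hβ
      · rintro (h | ⟨h, -⟩)
        · exact absurd h hαβ
        · exact absurd rfl h
    · by_cases hcβ' : c = β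
      · subst hcβ'
        rw [h4 u hu]
        exact ⟨fun _ => Or.inl rfl, fun _ => hα⟩
      · rw [h2 c hcα' hcβ' u]
        constructor
        · intro h
          exact Or.inr ⟨hcα', h⟩
        · rintro (h | ⟨-, h⟩)
          · exact absurd h hcβ'
          · exact h
  · have key := cov_comp (φ.M α) (φ.M β) (φ.inv α) (φ.inv β) hα hβ S hmem
    have e1 : cov φ' β = (S.filter (fun x => φ.M α x ≠ x)).card +
        (Sᶜ.filter (fun x => φ.M β x ≠ x)).card := by
      unfold cov
      rw [← card_union_of_disjoint]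
      · congr 1
        ext x
        simp only [mem_filter, mem_univ, true_and, mem_union, mem_compl]
        by_cases hx : x ∈ S
        · rw [h4 x hx]
          simp [hx]
        · rw [h1 β x hx]
          simp [hx]
      · rw [disjoint_left]
        intro x hx hx'
        rw [mem_filter] at hx hx'
        rw [mem_compl] at hx'
        exact hx'.1 hx.1
    have e2 : cov φ β = (S.filter (fun x => φ.M β x ≠ x)).card +
        (Sᶜ.filter (fun x => φ.M β x ≠ x)).card := by
      unfold cov
      rw [← card_union_of_disjoint]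
      · congr 1
        ext x
        simp only [mem_filter, mem_univ, true_and, mem_union, mem_compl]
        tauto
      · rw [disjoint_left]
        intro x hx hx'
        rw [mem_filter] at hx hx'
        rw [mem_compl] at hx'
        exact hx'.1 hx.1
    omega
  · intro c hcα' hcβ'
    unfold cov
    congr 1
    ext x
    rw [mem_filter, mem_filter, h2 c hcα' hcβ' x]

/-- K10b -/
theorem exists_min {G : SimpleGraph V} {u v : V} (hex : ∃ φ : Col C V, Good φ G u v) :
    ∃ φ : Col C V, Good φ G u v ∧ ∀ α ∈ miss φ u, ∀ β, β ∉ miss φ u →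
      cov φ α ≤ cov φ β := by
  classical
  have hP : ∃ n : ℕ, ∃ φ : Col C V, Good φ G u v ∧ ∑ c ∈ miss φ u, cov φ c = n := by
    obtain ⟨φ, hφ⟩ := hex
    exact ⟨_, φ, hφ, rfl⟩
  obtain ⟨φ, hφ, hsum⟩ := Nat.find_spec hP
  refine ⟨φ, hφ, fun α hα β hβ => ?_⟩
  have hα' : φ.M α u = u := (mem_filter.1 hα).2
  have hβ' : φ.M β u ≠ u := fun h => hβ (mem_filter.2 ⟨mem_univ _, h⟩)
  obtain ⟨φ', g1, g2, g3, g4⟩ := exchange φ hφ hα' hβ'
  have hmin : Nat.find hP ≤ ∑ c ∈ miss φ' u, cov φ' c := Nat.find_min' hP ⟨φ', g1, rfl⟩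
  rw [← hsum, g2, sum_insert (fun h => hβ (mem_of_mem_erase h)),
    ← add_sum_erase (miss φ u) _ hα] at hmin
  have e1 : ∑ c ∈ (miss φ u).erase α, cov φ' c = ∑ c ∈ (miss φ u).erase α, cov φ c := by
    refine sum_congr rfl (fun c hc => g4 c (ne_of_mem_erase hc) ?_)
    rintro rfl
    exact hβ (mem_of_mem_erase hc)
  omega

end VizSize
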