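import Pool.Agent.Lib.MP_389031_co.Defs

/-! # K3 adding and deleting edges -/

namespace VizSize

variable {C V : Type*}

open Classical in
/-- K3a -/
theorem exists_add (φ : Col C V) {c : C} {u v : V} (huv : u ≠ v) (hu : φ.M c u = u)
    (hv : φ.M c v = v) (hno : ∀ d, φ.M d u ≠ v) :
    ∃ φ' : Col C V, (∀ d, d ≠ c → ∀ x, φ'.M d x = φ.M d x) ∧
      (∀ x, x ≠ u → x ≠ v → φ'.M c x = φ.M c x) ∧ φ'.M c u = v ∧ φ'.M c v = u := by
  have hno' : ∀ d, φ.M d v ≠ u := by
    intro d h
    apply hno d
    rw [← h, φ.inv]
  refine ⟨⟨fun d x => if d = c then (if x = u then v else if x = v then u else φ.M c x)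
    else φ.M d x, ?_, ?_⟩, ?_, ?_, ?_, ?_⟩
  · intro d x
    by_cases hd : d = c
    · subst hd
      by_cases h1 : x = u
      · subst h1
        simp [Ne.symm huv]
      · by_cases h2 : x = v
        · subst h2
          simp [Ne.symm huv]
        · have h3 : φ.M d x ≠ u := by
            intro h
            apply h1
            rw [← φ.inv d x, h, hu]
          have h4 : φ.M d x ≠ v := by
            intro h
            apply h2
            rw [← φ.inv d x, h, hv]
          simp [h1, h2, h3, h4, φ.inv]
    · simp [hd, φ.inv]
  · intro d e x hde h
    by_cases hd : d = c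
    · subst hd
      have he : e ≠ d := Ne.symm hde
      by_cases h1 : x = u
      · subst h1
        simp only [if_true, if_neg he] at h
        exact absurd h.symm (hno e)
      · by_cases h2 : x = v
        · subst h2
          simp only [if_true, if_neg he, if_neg h1] at h
          exact absurd h.symm (hno' e)
        · simp only [if_true, if_neg he, if_neg h1, if_neg h2] at h ⊢
          exact φ.prop d e x hde h
    · by_cases he : e = c
      · subst he
        by_cases h1 : x = u
        · subst h1
          simp only [if_true, if_neg hd] at h
          exact absurd h (hno d)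
        · by_cases h2 : x = v
          · subst h2
            simp only [if_true, if_neg hd, if_neg h1] at h
            exact absurd h (hno' d)
          · simp only [if_true, if_neg hd, if_neg h1, if_neg h2] at h ⊢
            exact φ.prop d e x hde h
      · simp only [if_neg hd, if_neg he] at h ⊢
        exact φ.prop d e x hde h
  · intro d hd x
    simp [hd]
  · intro x h1 h2
    simp [h1, h2]
  · simp
  · simp [Ne.symm huv]

open Classical in
/-- K3b -/
theorem exists_del (φ : Col C V) {c : C} {u v : V} (huv : u ≠ v) (hu : φ.M c u = v) :
    ∃ φ' : Col C V, (∀ d, d ≠ c → ∀ x, φ'.M d x = φ.M d x) ∧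
      (∀ x, x ≠ u → x ≠ v → φ'.M c x = φ.M c x) ∧ φ'.M c u = u ∧ φ'.M c v = v := by
  have hv : φ.M c v = u := by rw [← hu, φ.inv]
  refine ⟨⟨fun d x => if d = c then (if x = u then u else if x = v then v else φ.M c x)
    else φ.M d x, ?_, ?_⟩, ?_, ?_, ?_, ?_⟩
  · intro d x
    by_cases hd : d = c
    · subst hd
      by_cases h1 : x = u
      · subst h1
        simp
      · by_cases h2 : x = v
        · subst h2
          simp [h1]
        · have h3 : φ.M d x ≠ u := by
            intro h
            apply h2
            rw [← φ.inv d x, h, hu]
          have h4 : φ.M d x ≠ v := by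
            intro h
            apply h1
            rw [← φ.inv d x, h, hv]
          simp [h1, h2, h3, h4, φ.inv]
    · simp [hd, φ.inv]
  · intro d e x hde h
    by_cases hd : d = c
    · subst hd
      have he : e ≠ d := Ne.symm hde
      by_cases h1 : x = u
      · simp [h1]
      · by_cases h2 : x = v
        · subst h2
          simp [h1]
        · simp only [if_true, if_neg he, if_neg h1, if_neg h2] at h ⊢
          exact φ.prop d e x hde h
    · by_cases he : e = c
      · subst he
        by_cases h1 : x = u
        · subst h1
          simp only [if_true, if_neg hd] at h ⊢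
          exact h
        · by_cases h2 : x = v
          · subst h2
            simp only [if_true, if_neg hd, if_neg h1] at h ⊢
            exact h
          · simp only [if_true, if_neg hd, if_neg h1, if_neg h2] at h ⊢
            exact φ.prop d e x hde h
      · simp only [if_neg hd, if_neg he] at h ⊢
        exact φ.prop d e x hde h
  · intro d hd x
    simp [hd]
  · intro x h1 h2
    simp [h1, h2]
  · simp
  · simp [Ne.symm huv]

end VizSize
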