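import Mathlib

namespace VizSize

/-- arithmetic for the uniform bound -/
theorem arithA (m n δ q p E : ℕ) (hm : 2 ≤ m) (hqδ : q + δ = m + 1) (hq : 1 ≤ q)
    (_hδ : 1 ≤ δ) (hp : p ^ 2 + q ≤ m) (hp1 : 1 ≤ p) (hn : m + 1 ≤ n)
    (hc : n * δ + q ^ 2 + 1 ≤ 2 * E + m)
    (hb : q * (m * m + (m + 1 - p) + n * δ) + q * (q + 1) + m * (2 * q + 1) ≤
      q * (2 * E + m + m * δ) + q * m + m * (3 * m + 3 * min q (m - q))) :
    (m : ℝ) ^ 2 - Real.sqrt 3 * (m * Real.sqrt m) ≤ 2 * E := by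
  -- real versions
  have hpm : p ≤ m := by nlinarith
  have hc' : ((m : ℝ) + 1) * δ + q ^ 2 + 1 ≤ 2 * E + m := by
    have : (m + 1) * δ + q ^ 2 + 1 ≤ 2 * E + m := by
      have := Nat.mul_le_mul_right δ hn
      omega
    exact_mod_cast this
  have hmin : min q (m - q) ≤ q := min_le_left _ _
  have hb' : (q : ℝ) * (m * m + (m + 1 - p) + (m + 1) * δ) + q * (q + 1) + m * (2 * q + 1) ≤
      q * (2 * E + m + m * δ) + q * m + m * (3 * m + 3 * q) := by
    have h1 : q * (m * m + (m + 1 - p) + (m + 1) * δ) + q * (q + 1) + m * (2 * q + 1) ≤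
      q * (2 * E + m + m * δ) + q * m + m * (3 * m + 3 * q) := by
      have h2 : q * ((m + 1) * δ) ≤ q * (n * δ) :=
        Nat.mul_le_mul_left _ (Nat.mul_le_mul_right _ hn)
      have h3 : m * (3 * min q (m - q)) ≤ m * (3 * q) := by gcongr
      nlinarith
    have h4 : ((m + 1 - p : ℕ) : ℝ) = (m : ℝ) + 1 - p := by
      rw [Nat.cast_sub (by omega)]; push_cast; ring
    have h5 : ((q * (m * m + (m + 1 - p) + (m + 1) * δ) + q * (q + 1) + m * (2 * q + 1) : ℕ) : ℝ) ≤
      ((q * (2 * E + m + m * δ) + q * m + m * (3 * m + 3 * q) : ℕ) : ℝ) := by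
      exact_mod_cast h1
    push_cast at h5
    rw [h4] at h5
    linarith
  have hδr : (δ : ℝ) = m + 1 - q := by
    have : (q : ℝ) + δ = m + 1 := by exact_mod_cast hqδ
    linarith
  have hpr : (p : ℝ) ^ 2 + q ≤ m := by exact_mod_cast hp
  have hmr : (2 : ℝ) ≤ m := by exact_mod_cast hm
  have hqr : (1 : ℝ) ≤ q := by exact_mod_cast hq
  have hp1r : (1 : ℝ) ≤ p := by exact_mod_cast hp1
  rw [hδr] at hc' hb'
  set r := Real.sqrt m with hr
  have hr2 : r * r = m := Real.mul_self_sqrt (by linarith)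
  have hr0 : 0 < r := Real.sqrt_pos.2 (by linarith)
  set t := Real.sqrt 3 with ht
  have ht2 : t * t = 3 := Real.mul_self_sqrt (by norm_num)
  have ht0 : 0 < t := Real.sqrt_pos.2 (by norm_num)
  have ht1 : 17 / 10 < t := by nlinarith
  have ht1' : t < 7 / 4 := by nlinarith
  -- s = sqrt (3 m) = t r
  set s := t * r with hs
  have hs2 : s * s = 3 * m := by rw [hs, ← hr2, ← ht2]; ring
  have hs0 : 0 < s := by positivity
  have hgoal : t * (m * r) = s * m := by rw [hs]; ring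
  rw [hgoal]
  rcases le_or_gt (q : ℝ) (s + 2) with h | h
  · -- small q
    obtain ⟨d, hd⟩ : ∃ d : ℝ, d = s + 2 - q := ⟨_, rfl⟩
    have hd0 : 0 ≤ d := by linarith
    have hq' : (q : ℝ) = s + 2 - d := by linarith
    rw [hq'] at hc'
    have key : 0 ≤ 2 * (m : ℝ) + 3 * s + 4 + d * (m - 2 * s - 3) + d ^ 2 := by
      rcases le_or_gt 0 ((m : ℝ) - 2 * s - 3) with h1 | h1
      · have := mul_nonneg hd0 h1
        positivity
      · have h2 : (m : ℝ) ^ 2 ≤ 4 * (s * m) + 2 * m + 7 := by nlinarith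
        have h3 := sq_nonneg (d - (2 * s + 3 - m) / 2)
        nlinarith
    nlinarith
  · -- large q
    have hpr' : (p : ℝ) ≤ r := by
      have : (p : ℝ) ^ 2 ≤ r ^ 2 := by nlinarith
      exact le_of_sq_le_sq this hr0.le
    have hqm : (q : ℝ) ≤ m := by nlinarith
    have hs4 : 4 ≤ s := by
      by_contra hcon'
      have hcon := not_le.1 hcon'
      have h1 : s + 2 < m := by linarith
      nlinarith
    have hrs : r * s = t * m := by rw [hs, ← hr2]; ring
    have h5 : (p : ℝ) * (s + 2) ≤ t * m + 2 * r := by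
      have : (p : ℝ) * (s + 2) ≤ r * (s + 2) := by gcongr
      nlinarith
    have hrm : 2 * r ≤ 3 * s := by
      have : r ≤ s := by rw [hs]; nlinarith
      linarith
    have h6 : (0 : ℝ) ≤ s * m - m + 3 * s + 6 - p * (s + 2) := by nlinarith
    have h7 : (0 : ℝ) ≤ s * m - m + 3 - p := by
      have : r ≤ s := by rw [hs]; nlinarith
      nlinarith
    have h8 : 3 * (m : ℝ) ^ 2 - m ≤ q * (s * m - m + 3 - p) := by
      have h9 : (s + 2) * (s * m - m + 3 - p) ≤ q * (s * m - m + 3 - p) := by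
        gcongr
      nlinarith
    have h10 : (q : ℝ) * ((m : ℝ) ^ 2 - s * m) ≤ q * (2 * E) := by nlinarith
    exact le_of_mul_le_mul_left h10 (by linarith)

end VizSize
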