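import Mathlib

/-! MP_389031_co, piece L9: arithmetic. -/

namespace VizSize

private theorem l9_caseA (m q s : ℝ) (hs : s ^ 2 = 3 * m) (hs10 : 10 ≤ s) (hq : s + 7 ≤ q)
    (hqm : q ≤ m / 2) :
    0 < -(s + 4.5) * q ^ 2 + (s * m + 3.5 * m + s + 7.5) * q + m - 3 * m ^ 2 := by
  have hm : m = s ^ 2 / 3 := by linarith
  have h1 : 0 ≤ (s + 4.5) * ((q - (s + 7)) * (m / 2 - q)) :=
    mul_nonneg (by linarith) (mul_nonneg (by linarith) (by linarith))
  set A : ℝ := m * (s / 2 + 1.25) - s ^ 2 - 10.5 * s - 24 with hA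
  have e1 : -(s + 4.5) * q ^ 2 + (s * m + 3.5 * m + s + 7.5) * q + m - 3 * m ^ 2 =
      (s + 4.5) * ((q - (s + 7)) * (m / 2 - q)) +
        (A * q + ((s + 4.5) * (s + 7) * (m / 2) + m - 3 * m ^ 2)) := by
    rw [hA]; ring
  rw [e1]
  have hL1 : 0 < A * (s + 7) + ((s + 4.5) * (s + 7) * (m / 2) + m - 3 * m ^ 2) := by
    have : A * (s + 7) + ((s + 4.5) * (s + 7) * (m / 2) + m - 3 * m ^ 2) =
        2.5 * s ^ 3 - 9 * s ^ 2 - 97.5 * s - 168 := by
      rw [hA, hm]; ring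
    rw [this]
    nlinarith [mul_nonneg (sub_nonneg.2 hs10) (sub_nonneg.2 hs10),
      mul_nonneg (mul_nonneg (sub_nonneg.2 hs10) (sub_nonneg.2 hs10)) (sub_nonneg.2 hs10)]
  have hL2 : 0 < A * (m / 2) + ((s + 4.5) * (s + 7) * (m / 2) + m - 3 * m ^ 2) := by
    have : A * (m / 2) + ((s + 4.5) * (s + 7) * (m / 2) + m - 3 * m ^ 2) =
        m ^ 2 * (s / 4 - 2.375) + m * (s / 2 + 4.75) := by
      rw [hA]; ring
    rw [this]
    have hmpos : 0 < m := by rw [hm]; positivity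
    have h2 : 0 < m ^ 2 * (s / 4 - 2.375) := mul_pos (by positivity) (by linarith)
    have h3 : 0 < m * (s / 2 + 4.75) := mul_pos hmpos (by linarith)
    linarith
  rcases le_total 0 A with hA0 | hA0
  · have : A * (s + 7) ≤ A * q := mul_le_mul_of_nonneg_left hq hA0
    linarith
  · have : A * (m / 2) ≤ A * q := mul_le_mul_of_nonpos_left hqm hA0
    linarith

private theorem l9_caseB1 (m x s : ℝ) (hs : s ^ 2 = 3 * m) (hs10 : 10 ≤ s) (hx : 1 ≤ x)
    (hxx : m + 4 ≤ (x + 1) * (x + 2)) (hxm : x ≤ m / 4) :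
    0 < -(s + 4.5) * x ^ 2 + ((s - 0.5) * m - s - 7.5) * x + (s + 8.5) * m - m ^ 2 := by
  have hm : m = s ^ 2 / 3 := by linarith
  have hx0 : 0.577 * s - 1.5 ≤ x := by
    by_contra hcon
    push Not at hcon
    have h1 : (x + 1.5) ^ 2 < (0.577 * s) ^ 2 := by
      apply pow_lt_pow_left₀ (by linarith) (by linarith) (by norm_num)
    nlinarith
  have h1 : 0 ≤ (s + 4.5) * (x * (m / 4 - x)) :=
    mul_nonneg (by linarith) (mul_nonneg (by linarith) (by linarith))
  have e1 : -(s + 4.5) * x ^ 2 + ((s - 0.5) * m - s - 7.5) * x + (s + 8.5) * m - m ^ 2 =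
      (s + 4.5) * (x * (m / 4 - x)) + (((0.75 * s - 1.625) * m - s - 7.5) * x +
        ((s + 8.5) * m - m ^ 2)) := by ring
  rw [e1]
  have hc : 0 ≤ (0.75 * s - 1.625) * m - s - 7.5 := by
    rw [hm]
    nlinarith [mul_nonneg (sub_nonneg.2 hs10) (sub_nonneg.2 hs10),
      mul_nonneg (mul_nonneg (sub_nonneg.2 hs10) (sub_nonneg.2 hs10)) (sub_nonneg.2 hs10)]
  have h2 : ((0.75 * s - 1.625) * m - s - 7.5) * (0.577 * s - 1.5) ≤
      ((0.75 * s - 1.625) * m - s - 7.5) * x := mul_le_mul_of_nonneg_left hx0 hc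
  have h3 : 0 < ((0.75 * s - 1.625) * m - s - 7.5) * (0.577 * s - 1.5) +
      ((s + 8.5) * m - m ^ 2) := by
    rw [hm]
    nlinarith [mul_nonneg (sub_nonneg.2 hs10) (sub_nonneg.2 hs10),
      mul_nonneg (mul_nonneg (sub_nonneg.2 hs10) (sub_nonneg.2 hs10)) (sub_nonneg.2 hs10),
      mul_nonneg (mul_nonneg (mul_nonneg (sub_nonneg.2 hs10) (sub_nonneg.2 hs10))
        (sub_nonneg.2 hs10)) (sub_nonneg.2 hs10)]
  linarith

private theorem l9_caseB2 (m x s : ℝ) (hs : s ^ 2 = 3 * m) (hs10 : 10 ≤ s)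
    (hxm : m / 4 ≤ x) (hxm2 : x ≤ m / 2) :
    0 < -(s + 4.5) * x ^ 2 + ((s - 0.5) * m - s - 7.5) * x + (s + 8.5) * m - m ^ 2 := by
  have hm : m = s ^ 2 / 3 := by linarith
  have hmpos : 0 < m := by rw [hm]; positivity
  have h1 : 0 ≤ (s + 4.5) * ((x - m / 4) * (m / 2 - x)) :=
    mul_nonneg (by linarith) (mul_nonneg (by linarith) (by linarith))
  set A : ℝ := (0.25 * s - 3.875) * m - s - 7.5 with hA
  have e1 : -(s + 4.5) * x ^ 2 + ((s - 0.5) * m - s - 7.5) * x + (s + 8.5) * m - m ^ 2 =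
      (s + 4.5) * ((x - m / 4) * (m / 2 - x)) +
        (A * x + (m ^ 2 * ((s + 4.5) / 8 - 1) + (s + 8.5) * m)) := by
    rw [hA]; ring
  rw [e1]
  have hL1 : 0 < A * (m / 4) + (m ^ 2 * ((s + 4.5) / 8 - 1) + (s + 8.5) * m) := by
    have : A * (m / 4) + (m ^ 2 * ((s + 4.5) / 8 - 1) + (s + 8.5) * m) =
        m ^ 2 * (0.1875 * s - 1.40625) + m * (0.75 * s + 6.625) := by
      rw [hA]; ring
    rw [this]
    have h2 : 0 < m ^ 2 * (0.1875 * s - 1.40625) := mul_pos (by positivity) (by linarith)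
    have h3 : 0 < m * (0.75 * s + 6.625) := mul_pos hmpos (by linarith)
    linarith
  have hL2 : 0 < A * (m / 2) + (m ^ 2 * ((s + 4.5) / 8 - 1) + (s + 8.5) * m) := by
    have : A * (m / 2) + (m ^ 2 * ((s + 4.5) / 8 - 1) + (s + 8.5) * m) =
        m ^ 2 * (0.25 * s - 2.375) + m * (0.5 * s + 4.75) := by
      rw [hA]; ring
    rw [this]
    have h2 : 0 < m ^ 2 * (0.25 * s - 2.375) := mul_pos (by positivity) (by linarith)
    have h3 : 0 < m * (0.5 * s + 4.75) := mul_pos hmpos (by linarith)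
    linarith
  rcases le_total 0 A with hA0 | hA0
  · have : A * (m / 4) ≤ A * x := mul_le_mul_of_nonneg_left hxm hA0
    linarith
  · have : A * (m / 2) ≤ A * x := mul_le_mul_of_nonpos_left hxm2 hA0
    linarith

private theorem l9_core (m q x k p s : ℝ) (hs : s ^ 2 = 3 * m) (hs10 : 10 ≤ s)
    (hm : m = q + x) (hk : s + 6 ≤ k) (hq : s + 7 ≤ q) (hp : 2 * p ≤ x + 1) (hx : 1 ≤ x)
    (hxx : m + 4 ≤ (x + 1) * (x + 2)) :
    3 * m ^ 2 + 3 * m * min q x <
      k * q * (x + 1) + q ^ 2 + 2 * q - p * q + m * q + m := by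
  have h0 : (s + 5.5) * (q * (x + 1)) ≤ k * q * (x + 1) - p * q := by
    have h1 : (s + 6) * (q * (x + 1)) ≤ k * (q * (x + 1)) :=
      mul_le_mul_of_nonneg_right hk (by nlinarith)
    have h2 : p * q ≤ (x + 1) / 2 * q := mul_le_mul_of_nonneg_right (by linarith) (by linarith)
    nlinarith
  rcases le_total q x with hqx | hxq
  · rw [min_eq_left hqx]
    have h := l9_caseA m q s hs hs10 hq (by linarith)
    have hx' : x = m - q := by linarith
    have e : (s + 5.5) * (q * (x + 1)) + q ^ 2 + 2 * q + m * q + m - (3 * m ^ 2 + 3 * m * q) =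
        -(s + 4.5) * q ^ 2 + (s * m + 3.5 * m + s + 7.5) * q + m - 3 * m ^ 2 := by
      rw [hx']; ring
    linarith
  · rw [min_eq_right hxq]
    have h : 0 < -(s + 4.5) * x ^ 2 + ((s - 0.5) * m - s - 7.5) * x + (s + 8.5) * m - m ^ 2 := by
      rcases le_total x (m / 4) with h4 | h4
      · exact l9_caseB1 m x s hs hs10 hx hxx h4
      · exact l9_caseB2 m x s hs hs10 h4 (by linarith)
    have hq' : q = m - x := by linarith
    have e : (s + 5.5) * (q * (x + 1)) + q ^ 2 + 2 * q + m * q + m - (3 * m ^ 2 + 3 * m * x) =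
        -(s + 4.5) * x ^ 2 + ((s - 0.5) * m - s - 7.5) * x + (s + 8.5) * m - m ^ 2 := by
      rw [hq']; ring
    linarith

private theorem l9_small (q x k p : ℕ) (hm : q + x ≤ 33) (hk : 3 * (q + x) ≤ k ^ 2)
    (hq : k + 7 ≤ q) (hp : 2 * p ≤ x + 1) (hx : 1 ≤ x)
    (hxx : q + x + 4 ≤ (x + 1) * (x + 2)) :
    3 * (q + x) ^ 2 + 3 * (q + x) * min q x + p * q <
      (k + 6) * q * (x + 1) + q ^ 2 + 2 * q + (q + x) * q + (q + x) := by
  have hk7 : 7 ≤ k := by
    by_contra hcon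
    have h1 : k ≤ 6 := by omega
    have h2 : k ^ 2 ≤ 6 * k := by nlinarith
    omega
  have hk8 : 17 ≤ q + x → 8 ≤ k := by
    intro h
    by_contra hcon
    have h1 : k = 7 := by omega
    subst h1
    omega
  have hk9 : 22 ≤ q + x → 9 ≤ k := by
    intro h
    by_contra hcon
    have h2 := hk8 (by omega)
    have h1 : k = 8 := by omega
    subst h1
    omega
  have hk10 : 28 ≤ q + x → 10 ≤ k := by
    intro h
    by_contra hcon
    have h2 := hk9 (by omega)
    have h1 : k = 9 := by omega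
    subst h1
    omega
  clear hk
  have hq14 : 14 ≤ q := by omega
  have hq32 : q ≤ 32 := by omega
  have hx19 : x ≤ 19 := by omega
  interval_cases x <;> (try omega) <;> interval_cases q <;> omega

/-- L9: arithmetic -/
theorem arith (m n δ q p E : ℕ) (hm : 2 ≤ m) (hqδ : q + δ = m + 1) (hq : 1 ≤ q)
    (hδ : 1 ≤ δ) (hp : p ^ 2 + q ≤ m) (hp1 : 1 ≤ p)
    (hn : (m : ℝ) + Real.sqrt (3 * m) + 6 ≤ n)
    (ha : 2 * q * m + 3 * q + 2 ≤ 2 * E + 2 * m + q ^ 2)
    (hc : n * δ + q ^ 2 + 1 ≤ 2 * E + m)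
    (hb : q * (m * m + (m + 1 - p) + n * δ) + q * (q + 1) + m * (2 * q + 1) ≤
      q * (2 * E + m + m * δ) + q * m + m * (3 * m + 3 * min q (m - q))) :
    m ^ 2 < 2 * E := by
  obtain ⟨x, hx⟩ : ∃ x, m = q + x := ⟨m - q, by omega⟩
  have hδx : δ = x + 1 := by omega
  subst hδx
  subst hx
  have hpx : p ^ 2 ≤ x := by omega
  have hx1 : 1 ≤ x := by nlinarith
  have h2p : 2 * p ≤ x + 1 := by
    obtain ⟨p', hp'⟩ : ∃ p', p = p' + 1 := ⟨p - 1, by omega⟩
    subst hp'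
    nlinarith [Nat.zero_le (p' ^ 2)]
  have hsq0 : 0 ≤ Real.sqrt (3 * ((q + x : ℕ) : ℝ)) := Real.sqrt_nonneg _
  have hn6 : q + x + 6 ≤ n := by
    have : ((q + x + 6 : ℕ) : ℝ) ≤ n := by
      have h := hn
      push_cast at h hsq0 ⊢
      linarith
    exact_mod_cast this
  obtain ⟨k, hk⟩ : ∃ k, n = q + x + 6 + k := ⟨n - (q + x + 6), by omega⟩
  subst hk
  have hsk : Real.sqrt (3 * ((q + x : ℕ) : ℝ)) ≤ k := by push_cast at hn ⊢; linarith
  have hkk : 3 * (q + x) ≤ k ^ 2 := by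
    have h1 : (3 * ((q + x : ℕ) : ℝ)) ≤ (k : ℝ) ^ 2 := by
      rw [← Real.sqrt_le_left (by positivity)]
      exact hsk
    exact_mod_cast h1
  -- case (a)
  by_cases hA : (x + 1) * (x + 2) < q + x + 4
  · nlinarith
  push Not at hA
  -- case (c)
  by_cases hC : q ≤ k + 6
  · nlinarith [Nat.mul_le_mul_left (x + 1) hC]
  push Not at hC
  have hmin : q + x - q = x := by omega
  rw [hmin] at hb
  have hpm : q + x + 1 - p + p = q + x + 1 := by
    have : p ≤ q + x + 1 := by omega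
    omega
  -- the main inequality
  have key : 3 * (q + x) ^ 2 + 3 * (q + x) * min q x + p * q <
      (k + 6) * q * (x + 1) + q ^ 2 + 2 * q + (q + x) * q + (q + x) := by
    by_cases hm33 : q + x ≤ 33
    · exact l9_small q x k p hm33 hkk (by omega) h2p hx1 hA
    · push Not at hm33
      set s : ℝ := Real.sqrt (3 * ((q + x : ℕ) : ℝ)) with hs
      have hss : s ^ 2 = 3 * ((q + x : ℕ) : ℝ) := Real.sq_sqrt (by positivity)
      have hm34 : (34 : ℝ) ≤ ((q + x : ℕ) : ℝ) := by exact_mod_cast hm33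
      have hs10 : 10 ≤ s := by
        by_contra hcon
        push Not at hcon
        nlinarith
      have hq' : s + 7 ≤ q := by
        have : ((k + 7 : ℕ) : ℝ) ≤ q := by exact_mod_cast (by omega : k + 7 ≤ q)
        push_cast at this
        linarith
      have := l9_core ((q + x : ℕ) : ℝ) q x ((k : ℝ) + 6) p s hss hs10 (by push_cast; ring)
        (by linarith) hq' (by exact_mod_cast h2p) (by exact_mod_cast hx1)
        (by exact_mod_cast hA)
      have h2 : 3 * ((q + x : ℕ) : ℝ) ^ 2 + 3 * ((q + x : ℕ) : ℝ) * min (q : ℝ) x + p * q <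
          ((k : ℝ) + 6) * q * (x + 1) + q ^ 2 + 2 * q + ((q + x : ℕ) : ℝ) * q +
            ((q + x : ℕ) : ℝ) := by linarith
      exact_mod_cast h2
  by_contra hcon
  push Not at hcon
  have h3 : q * (2 * E) ≤ q * (q + x) ^ 2 := Nat.mul_le_mul_left q hcon
  have h4 : q * (q + x + 1 - p) + q * p = q * (q + x + 1) := by rw [← mul_add, hpm]
  generalize q + x + 1 - p = t at hb h4
  generalize min q x = c at hb key
  clear hn ha hc hcon hpm hkk hsk hsq0 hp hA hC hmin hpx h2p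
  nlinarith [h3, h4, hb, key]

end VizSize
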